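import Pool.Agent.Helper140_E5.Grp

/-!
# Groups of exponent three are metabelian
-/

set_option autoImplicit false

namespace Pool.Agent.Helper140_T12

open Pool.Agent.Helper140_E5
open Subgroup
open scoped commutatorElement

universe u

section
variable {M : Type u} [Group M]

theorem cube_conj (h3 : ∀ x : M, x ^ 3 = 1) (a b : M) :
    a * (b * a * b⁻¹) * (b ^ 2 * a * (b ^ 2)⁻¹) = 1 := by
  have h := h3 (a * b)
  have hb := h3 b
  have : a * (b * a * b⁻¹) * (b ^ 2 * a * (b ^ 2)⁻¹) * b ^ 3 = (a * b) ^ 3 := by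
    simp only [pow_succ, pow_zero, one_mul, mul_inv_rev, mul_assoc, inv_mul_cancel_left]
  rw [h, hb, mul_one] at this
  exact this

theorem conj_comm (h3 : ∀ x : M, x ^ 3 = 1) (a b : M) :
    a * (b * a * b⁻¹) = (b * a * b⁻¹) * a := by
  have hb := h3 b
  have e1 := cube_conj h3 a b
  have e2 := cube_conj h3 a b⁻¹
  have i1 : b⁻¹ = b ^ 2 := by
    rw [inv_eq_iff_mul_eq_one, ← pow_succ', hb]
  have i2 : (b⁻¹) ^ 2 = b := by
    rw [i1, ← pow_mul]
    have : b ^ (2 * 2) = b ^ 3 * b := by rw [← pow_succ]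
    rw [this, hb, one_mul]
  have i3 : (b ^ 2)⁻¹ = b := by
    rw [← i1, inv_inv]
  rw [i2, inv_inv] at e2
  rw [i3] at e1
  have e1' : a * (b * a * b⁻¹) * (b ^ 2 * a * b) = 1 := e1
  have e2' : a * (b ^ 2 * a * b) * (b * a * b⁻¹) = 1 := by
    rw [← i1] at *
    exact e2
  set p := b * a * b⁻¹ with hp
  set q := b ^ 2 * a * b with hq
  have h1 : p * q = q * p := by
    have : a * (p * q) = a * (q * p) := by rw [← mul_assoc, e1', ← mul_assoc, e2']
    exact mul_left_cancel this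
  have h2 : a = (p * q)⁻¹ := eq_inv_of_mul_eq_one_left (by rw [← mul_assoc]; exact e1')
  rw [h2, mul_inv_rev]
  have c : Commute p q := h1
  exact ((c.symm.inv_left.mul_left (Commute.refl p).inv_left)).eq

theorem closure_comm {s : Set M} (h : ∀ x ∈ s, ∀ y ∈ s, x * y = y * x) :
    ∀ x ∈ closure s, ∀ y ∈ closure s, x * y = y * x := by
  have h1 : closure s ≤ centralizer s := by
    rw [closure_le]
    intro x hx
    rw [SetLike.mem_coe, mem_centralizer_iff]
    intro y hy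
    exact h y hy x hx
  intro x hx y hy
  have h2 : closure s ≤ centralizer {x} := by
    rw [closure_le]
    intro z hz
    rw [SetLike.mem_coe, mem_centralizer_iff]
    rintro _ rfl
    exact (mem_centralizer_iff.1 (h1 hx) z hz).symm
  exact mem_centralizer_iff.1 (h2 hy) x rfl

theorem nc_comm (h3 : ∀ x : M, x ^ 3 = 1) (a : M) :
    ∀ x ∈ normalClosure {a}, ∀ y ∈ normalClosure {a}, x * y = y * x := by
  refine closure_comm ?_
  intro x hx y hy
  rw [Group.mem_conjugatesOfSet_iff] at hx hy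
  obtain ⟨a', rfl, hx⟩ := hx
  obtain ⟨b', rfl, hy⟩ := hy
  obtain ⟨g, rfl⟩ := isConj_iff.1 hx
  obtain ⟨h, rfl⟩ := isConj_iff.1 hy
  have := conj_comm h3 b' (g⁻¹ * h)
  have e1 : g * b' * g⁻¹ * (h * b' * h⁻¹) =
      g * (b' * (g⁻¹ * h * b' * (g⁻¹ * h)⁻¹)) * g⁻¹ := by group
  rw [e1, this]
  group

/-- quadratic action -/
theorem cj_sq (h3 : ∀ x : M, x ^ 3 = 1) {N : Subgroup M} (hN : N.Normal)
    (hab : ∀ x ∈ N, ∀ y ∈ N, x * y = y * x) (g : M) :
    (1 - cj hN hab g) * (1 - cj hN hab g) = 0 := by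
  have h1 : 1 + cj hN hab g + cj hN hab g * cj hN hab g = 0 := by
    refine AddMonoidHom.ext fun v => tN_inj ?_
    have := cube_conj h3 (tN v) g
    change tN v * (g * tN v * g⁻¹) * (g * (g * tN v * g⁻¹) * g⁻¹) = 1
    rw [← this]
    group
  have h2 : (3 : AddMonoid.End (NV N hab)) * cj hN hab g = 0 := by
    refine AddMonoidHom.ext fun v => tN_inj ?_
    have e : ((3 : AddMonoid.End (NV N hab)) * cj hN hab g) v = (3 : ℕ) • (cj hN hab g v) := rfl
    exact (congrArg tN e).trans (by rw [tN_nsmul, h3]; rfl)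
  linear_combination (norm := noncomm_ring) h1 - h2

theorem quad_inv {R : Type u} [Ring R] (φ : M →* R)
    (h : ∀ g, (1 - φ g) * (1 - φ g) = 0) (x : M) : φ x⁻¹ = 1 + (1 - φ x) := by
  have hx := h x
  have hmul : φ x⁻¹ * φ x = 1 := by rw [← map_mul, inv_mul_cancel, map_one]
  have e2 : φ x⁻¹ * (φ x * (1 + (1 - φ x))) = 1 + (1 - φ x) := by
    rw [← mul_assoc, hmul, one_mul]
  rw [← e2]
  have : φ x * (1 + (1 - φ x)) = 1 - (1 - φ x) * (1 - φ x) := by noncomm_ring
  rw [this, hx, sub_zero, mul_one]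

theorem quad_comm {R : Type u} [Ring R] (h3 : (1 : R) + 1 + 1 = 0) {Y Z : R} (hy : Y * Y = 0)
    (hz : Z * Z = 0) (A : Y * Z + Z * Y = 0) :
    (1 - Y) * (1 - Z) * (1 + Y) * (1 + Z) = 1 - Y * Z := by
  linear_combination (norm := noncomm_ring) h3 * (Y * Z) - A - hy - hy * Z - hz + Y * hz -
    A * Z + Y * hz + Y * A - hy * Z + Y * A * Z - hy * Z * Z

theorem quad_anti {R : Type u} [Ring R] (φ : M →* R)
    (h : ∀ g, (1 - φ g) * (1 - φ g) = 0) (h3 : (1 : R) + 1 + 1 = 0) (x y : M) :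
    (1 - φ x) * (1 - φ y) + (1 - φ y) * (1 - φ x) = 0 := by
  have hx := h x
  have hy := h y
  have hxy := h (x * y)
  have hxi := h x⁻¹
  have hxy' := h (x⁻¹ * y)
  have hmul : φ x⁻¹ * φ x = 1 := by rw [← map_mul, inv_mul_cancel, map_one]
  rw [map_mul] at hxy hxy'
  set X := 1 - φ x with hX
  set Y := 1 - φ y with hY
  have ex : φ x = 1 - X := by rw [hX]; abel
  have ey : φ y = 1 - Y := by rw [hY]; abel
  have exi : φ x⁻¹ = 1 + X := by
    have e2 : φ x⁻¹ * (φ x * (1 + X)) = 1 + X := by rw [← mul_assoc, hmul, one_mul]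
    rw [← e2, ex]
    have : (1 - X) * (1 + X) = 1 - X * X := by noncomm_ring
    rw [this, hx, sub_zero, mul_one]
  have eyi : φ y⁻¹ = 1 + Y := by
    have hmul' : φ y⁻¹ * φ y = 1 := by rw [← map_mul, inv_mul_cancel, map_one]
    have e2 : φ y⁻¹ * (φ y * (1 + Y)) = 1 + Y := by rw [← mul_assoc, hmul', one_mul]
    rw [← e2, ey]
    have : (1 - Y) * (1 + Y) = 1 - Y * Y := by noncomm_ring
    rw [this, hy, sub_zero, mul_one]
  rw [ex, ey] at hxy
  rw [exi, ey] at hxy'
  have s1 : X * Y * X * (1 - Y) = 0 := by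
    linear_combination (norm := noncomm_ring) hxy + hxy' - hx - hx - hy - hy +
      h3 * (X * Y * X) - h3 * (X * Y * X * Y) + hx * Y + hx * Y
  have s2 : X * Y * X = 0 := by
    linear_combination (norm := noncomm_ring) s1 * (1 + Y) + X * Y * X * hy
  have s3 : Y * X * Y = 0 := by
    linear_combination (norm := noncomm_ring) Y * hxy - Y * hx + Y * hx * Y - hy * X - hy * Y +
      hy * X * Y + Y * s2 + Y * X * hy - Y * s2 * Y
  linear_combination (norm := noncomm_ring) hxy - hx + hx * Y - hy + s3 + s2 + X * hy - s2 * Y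

/-- the commutator `[[a, x], y, z]` -/
def Fc (a x y z : M) : M := ⁅⁅⁅a, x⁆, y⁆, z⁆

theorem comm_cj {N : Subgroup M} (hN : N.Normal) (hab : ∀ x ∈ N, ∀ y ∈ N, x * y = y * x)
    (v : NV N hab) (g : M) : ⁅tN v, g⁆ = tN ((1 - cj hN hab g) v) := by
  change _ = tN (v - cj hN hab g v)
  rw [tN_sub, tN_cj, commutatorElement_def]
  group

theorem Fc_cj {N : Subgroup M} (hN : N.Normal) (hab : ∀ x ∈ N, ∀ y ∈ N, x * y = y * x)
    (v : NV N hab) (x y z : M) :
    Fc (tN v) x y z =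
      tN (((1 - cj hN hab z) * ((1 - cj hN hab y) * (1 - cj hN hab x))) v) := by
  rw [Fc, comm_cj hN hab, comm_cj hN hab, comm_cj hN hab]
  rfl

theorem three_end (h3 : ∀ x : M, x ^ 3 = 1) {N : Subgroup M}
    (hab : ∀ x ∈ N, ∀ y ∈ N, x * y = y * x) :
    (1 : AddMonoid.End (NV N hab)) + 1 + 1 = 0 := by
  refine AddMonoidHom.ext fun v => tN_inj ?_
  change tN v * tN v * tN v = 1
  have := h3 (tN v)
  rwa [pow_succ, pow_two] at this

section
variable (h3 : ∀ x : M, x ^ 3 = 1)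
include h3

theorem Fc_swap (a x y z : M) : Fc a y x z = (Fc a x y z)⁻¹ ∧ Fc a x z y = (Fc a x y z)⁻¹ ∧
    Fc x a y z = (Fc a x y z)⁻¹ ∧ ⁅⁅a, x⁆, ⁅y, z⁆⁆ = (Fc a x y z)⁻¹ := by
  have hab := nc_comm h3 a
  have hN : (normalClosure {a}).Normal := inferInstance
  have ha : a ∈ normalClosure {a} := subset_normalClosure rfl
  set v : NV (normalClosure {a}) hab := fN ha with hv
  have hva : tN v = a := rfl
  have hq := quad_anti (cj hN hab) (cj_sq h3 hN hab) (three_end h3 hab)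
  have hs := cj_sq h3 hN hab
  refine ⟨?_, ?_, ?_, ?_⟩
  · have e1 := Fc_cj hN hab v y x z
    have e2 := Fc_cj hN hab v x y z
    rw [hva] at e1 e2
    rw [e1, e2, ← tN_neg]
    congr 1
    have := hq x y
    have e3 : (1 - cj hN hab z) * ((1 - cj hN hab x) * (1 - cj hN hab y)) =
        -((1 - cj hN hab z) * ((1 - cj hN hab y) * (1 - cj hN hab x))) := by
      linear_combination (norm := noncomm_ring) (1 - cj hN hab z) * this
    rw [e3]
    rfl
  · have e1 := Fc_cj hN hab v x z y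
    have e2 := Fc_cj hN hab v x y z
    rw [hva] at e1 e2
    rw [e1, e2, ← tN_neg]
    congr 1
    have := hq y z
    have e3 : (1 - cj hN hab y) * ((1 - cj hN hab z) * (1 - cj hN hab x)) =
        -((1 - cj hN hab z) * ((1 - cj hN hab y) * (1 - cj hN hab x))) := by
      linear_combination (norm := noncomm_ring) this * (1 - cj hN hab x)
    rw [e3]
    rfl
  · have e0 : ⁅x, a⁆ = tN (-((1 - cj hN hab x) v)) := by
      rw [tN_neg, ← comm_cj hN hab, hva, commutatorElement_inv]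
    rw [Fc, Fc, e0, comm_cj hN hab, comm_cj hN hab]
    have e1 := Fc_cj hN hab v x y z
    rw [hva, Fc] at e1
    rw [e1, ← tN_neg]
    congr 1
    rw [map_neg, map_neg]
    rfl
  · have e0 : ⁅a, x⁆ = tN ((1 - cj hN hab x) v) := by
      rw [← comm_cj hN hab, hva]
    rw [Fc, e0, comm_cj hN hab, comm_cj hN hab, comm_cj hN hab, ← tN_neg]
    congr 1
    have e1 : cj hN hab ⁅y, z⁆ = 1 - (1 - cj hN hab y) * (1 - cj hN hab z) := by
      rw [← quad_comm (three_end h3 hab) (hs y) (hs z) (hq y z), commutatorElement_def, map_mul,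
        map_mul, map_mul, quad_inv (cj hN hab) hs y, quad_inv (cj hN hab) hs z, sub_sub_cancel,
        sub_sub_cancel]
    have e2 : (1 : AddMonoid.End (NV (normalClosure {a}) hab)) - cj hN hab ⁅y, z⁆ =
        -((1 - cj hN hab z) * (1 - cj hN hab y)) := by
      rw [e1]
      linear_combination (norm := noncomm_ring) hq y z
    rw [e2]
    rfl

theorem Fc_one (a x y z : M) : ⁅⁅a, x⁆, ⁅y, z⁆⁆ = 1 := by
  have h1 := (Fc_swap h3 a x y z).2.2.2
  have h2 := (Fc_swap h3 y z a x).2.2.2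
  have e1 := (Fc_swap h3 a x y z).1
  have e2 := (Fc_swap h3 a y x z).2.2.1
  have e3 := (Fc_swap h3 y a x z).2.1
  have e4 := (Fc_swap h3 y a z x).1
  rw [e4, e3, e2, e1, inv_inv, inv_inv] at h2
  rw [← commutatorElement_inv, h1, inv_inv] at h2
  set F := Fc a x y z
  have h4 : F * F = 1 := by
    nth_rw 2 [h2]
    exact mul_inv_cancel F
  have h5 := h3 F
  rw [pow_succ, pow_two, h4, one_mul] at h5
  rw [h1, h5, inv_one]

/-- Groups of exponent three are metabelian. -/
theorem meta3 : derivedSeries M 2 = ⊥ := by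
  rw [derivedSeries_succ, derivedSeries_one]
  have h : ∀ x ∈ commutator M, ∀ y ∈ commutator M, x * y = y * x := by
    rw [commutator_eq_closure]
    refine closure_comm ?_
    rintro _ ⟨a, b, rfl⟩ _ ⟨c, d, rfl⟩
    exact commutatorElement_eq_one_iff_mul_comm.1 (Fc_one h3 a b c d)
  rw [eq_bot_iff, commutator_le]
  intro x hx y hy
  rw [mem_bot]
  exact commutatorElement_eq_one_iff_mul_comm.2 (h x hx y hy)

end

end

end Pool.Agent.Helper140_T12
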