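import Pool.Agent.Helper140_T12.Mn
import Pool.Agent.Helper140_E5.Lf
import Pool.Agent.H15R2.Burn

/-!
# Local finiteness
-/

set_option autoImplicit false

namespace Pool.Agent.Helper140_T12

open Pool.Agent.Helper140_E5

universe u

section
variable {R : Type u} [Ring R] {G : Subgroup Rˣ}

/-- `AB + BA` commutes with the elements of order three -/
theorem Tw.central (H : Tw G) {a b c : Rˣ} (ha : Dt G a) (hb : Dt G b) (hc : Dt G c) :
    Tt (a : R) b * c = c * Tt (a : R) b := by
  have h1 := congrArg Units.val (H.main ha hb hc)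
  have h2 := congrArg Units.val (H.main ha hb.inv hc)
  rw [Units.val_mul, Units.val_mul, H.z_val ha hb, ep] at h1
  rw [Units.val_mul, Units.val_mul, H.z_val ha hb.inv, ep, Tt_neg (H.inv_sub hb)] at h2
  linear_combination (norm := noncomm_ring) h1 - h2 + H.t3 * (Tt (a : R) b * c) -
    H.t3 * (c * Tt (a : R) b)

theorem fin_zero (h3 : (1 : R) + 1 + 1 = 0) : ((Subring.closure (∅ : Set R) : Subring R) :
    Set R).Finite := by
  refine Set.Finite.subset (s := {0, 1, -1}) (by simp) ?_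
  intro x hx
  have h2 : (1 : R) + 1 = -1 := by
    linear_combination (norm := noncomm_ring) h3
  have h2' : (-1 : R) + -1 = 1 := by
    linear_combination (norm := noncomm_ring) -h3
  refine Subring.closure_induction (p := fun x _ => x ∈ ({0, 1, -1} : Set R)) (fun x hx => hx.elim)
    (by simp) (by simp) ?_ ?_ ?_ hx
  · rintro x y - - (rfl | rfl | rfl) (rfl | rfl | rfl) <;> simp [h2, h2']
  · rintro x - (rfl | rfl | rfl) <;> simp
  · rintro x y - - (rfl | rfl | rfl) (rfl | rfl | rfl) <;> simp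

theorem fin_t {S : Set R} (hS : ((Subring.closure S : Subring R) : Set R).Finite) {t : R}
    (ht : ∀ s ∈ S, t * s = s * t) (t3 : t ^ 3 = t) :
    ((Subring.closure (insert t S) : Subring R) : Set R).Finite := by
  set W := Subring.closure S with hW
  have hc : ∀ w ∈ W, t * w = w * t := by
    intro w hw
    refine Subring.closure_induction (p := fun x _ => t * x = x * t) ht (by simp) (by simp)
      ?_ ?_ ?_ hw
    · intro x y _ _ hx hy
      rw [mul_add, add_mul, hx, hy]
    · intro x _ hx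
      rw [mul_neg, neg_mul, hx]
    · intro x y _ _ hx hy
      rw [← mul_assoc, hx, mul_assoc, hy, mul_assoc]
  set F : Set R := (fun p : R × R × R => p.1 + p.2.1 * t + p.2.2 * t ^ 2) ''
    ((W : Set R) ×ˢ ((W : Set R) ×ˢ (W : Set R))) with hF
  have hFf : F.Finite := (hS.prod (hS.prod hS)).image _
  have hmem : ∀ x, x ∈ F ↔ ∃ a ∈ W, ∃ b ∈ W, ∃ c ∈ W, x = a + b * t + c * t ^ 2 := by
    intro x
    constructor
    · rintro ⟨⟨a, b, c⟩, ⟨ha, hb, hc⟩, rfl⟩
      exact ⟨a, ha, b, hb, c, hc, rfl⟩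
    · rintro ⟨a, ha, b, hb, c, hc, rfl⟩
      exact ⟨⟨a, b, c⟩, ⟨ha, hb, hc⟩, rfl⟩
  have hWF : ∀ w ∈ W, w ∈ F := fun w hw => (hmem w).2 ⟨w, hw, 0, zero_mem _, 0, zero_mem _, by simp⟩
  refine hFf.subset ?_
  intro x hx
  refine Subring.closure_induction (p := fun x _ => x ∈ F) ?_ (hWF _ (zero_mem _))
    (hWF _ (one_mem _)) ?_ ?_ ?_ hx
  · rintro x (rfl | hx)
    · exact (hmem _).2 ⟨0, zero_mem _, 1, one_mem _, 0, zero_mem _, by simp⟩
    · exact hWF _ (Subring.subset_closure hx)
  · intro x y _ _ hx hy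
    obtain ⟨a, ha, b, hb, c, hc, rfl⟩ := (hmem _).1 hx
    obtain ⟨a', ha', b', hb', c', hc', rfl⟩ := (hmem _).1 hy
    exact (hmem _).2 ⟨a + a', add_mem ha ha', b + b', add_mem hb hb', c + c', add_mem hc hc', by
      noncomm_ring⟩
  · intro x _ hx
    obtain ⟨a, ha, b, hb, c, hc, rfl⟩ := (hmem _).1 hx
    exact (hmem _).2 ⟨-a, neg_mem ha, -b, neg_mem hb, -c, neg_mem hc, by noncomm_ring⟩
  · intro x y _ _ hx hy
    obtain ⟨a, ha, b, hb, c, hc0, rfl⟩ := (hmem _).1 hx
    obtain ⟨a', ha', b', hb', c', hc', rfl⟩ := (hmem _).1 hy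
    refine (hmem _).2 ⟨a * a', mul_mem ha ha', a * b' + b * a' + b * c' + c * b', ?_,
      a * c' + b * b' + c * a' + c * c', ?_, ?_⟩
    · exact add_mem (add_mem (add_mem (mul_mem ha hb') (mul_mem hb ha')) (mul_mem hb hc'))
        (mul_mem hc0 hb')
    · exact add_mem (add_mem (add_mem (mul_mem ha hc') (mul_mem hb hb')) (mul_mem hc0 ha'))
        (mul_mem hc0 hc')
    · have e1 := hc a' ha'
      have e2 := hc b' hb'
      have e3 := hc c' hc'
      linear_combination (norm := noncomm_ring)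
        b * e1 + b * e2 * t + b * e3 * t ^ 2 + c * t * e1 + c * e1 * t + c * t * e2 * t +
        c * e2 * t ^ 2 + c * t * e3 * t ^ 2 + c * e3 * t ^ 3 + b * c' * t3 + c * b' * t3 +
        c * c' * t3 * t

theorem fin_A {S : Set R} (hS : ((Subring.closure S : Subring R) : Set R).Finite) {A : R}
    (hA : A * A = 0)
    (hs : ∀ s ∈ S, ∃ v ∈ Subring.closure S, ∃ w ∈ Subring.closure S, A * s = v + w * A) :
    ((Subring.closure (insert A S) : Subring R) : Set R).Finite := by
  set W := Subring.closure S with hW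
  have hc : ∀ x ∈ W, ∃ v ∈ W, ∃ w ∈ W, A * x = v + w * A := by
    intro x hx
    refine Subring.closure_induction (p := fun x _ => ∃ v ∈ W, ∃ w ∈ W, A * x = v + w * A) hs
      ⟨0, zero_mem _, 0, zero_mem _, by simp⟩ ⟨0, zero_mem _, 1, one_mem _, by simp⟩ ?_ ?_ ?_ hx
    · rintro x y _ _ ⟨v, hv, w, hw, e⟩ ⟨v', hv', w', hw', e'⟩
      exact ⟨v + v', add_mem hv hv', w + w', add_mem hw hw', by
        rw [mul_add, e, e']
        noncomm_ring⟩
    · rintro x _ ⟨v, hv, w, hw, e⟩
      exact ⟨-v, neg_mem hv, -w, neg_mem hw, by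
        rw [mul_neg, e]
        noncomm_ring⟩
    · rintro x y hx hy ⟨v, hv, w, hw, e⟩ ⟨v', hv', w', hw', e'⟩
      refine ⟨v * y + w * v', add_mem (mul_mem hv hy) (mul_mem hw hv'), w * w', mul_mem hw hw', ?_⟩
      linear_combination (norm := noncomm_ring) e * y + w * e'
  set F : Set R := (fun p : R × R => p.1 + p.2 * A) '' ((W : Set R) ×ˢ (W : Set R)) with hF
  have hFf : F.Finite := (hS.prod hS).image _
  have hmem : ∀ x, x ∈ F ↔ ∃ a ∈ W, ∃ b ∈ W, x = a + b * A := by
    intro x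
    constructor
    · rintro ⟨⟨a, b⟩, ⟨ha, hb⟩, rfl⟩
      exact ⟨a, ha, b, hb, rfl⟩
    · rintro ⟨a, ha, b, hb, rfl⟩
      exact ⟨⟨a, b⟩, ⟨ha, hb⟩, rfl⟩
  have hWF : ∀ w ∈ W, w ∈ F := fun w hw => (hmem w).2 ⟨w, hw, 0, zero_mem _, by simp⟩
  refine hFf.subset ?_
  intro x hx
  refine Subring.closure_induction (p := fun x _ => x ∈ F) ?_ (hWF _ (zero_mem _))
    (hWF _ (one_mem _)) ?_ ?_ ?_ hx
  · rintro x (rfl | hx)
    · exact (hmem _).2 ⟨0, zero_mem _, 1, one_mem _, by simp⟩
    · exact hWF _ (Subring.subset_closure hx)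
  · intro x y _ _ hx hy
    obtain ⟨a, ha, b, hb, rfl⟩ := (hmem _).1 hx
    obtain ⟨a', ha', b', hb', rfl⟩ := (hmem _).1 hy
    exact (hmem _).2 ⟨a + a', add_mem ha ha', b + b', add_mem hb hb', by noncomm_ring⟩
  · intro x _ hx
    obtain ⟨a, ha, b, hb, rfl⟩ := (hmem _).1 hx
    exact (hmem _).2 ⟨-a, neg_mem ha, -b, neg_mem hb, by noncomm_ring⟩
  · intro x y _ _ hx hy
    obtain ⟨a, ha, b, hb, rfl⟩ := (hmem _).1 hx
    obtain ⟨a', ha', b', hb', rfl⟩ := (hmem _).1 hy
    obtain ⟨v, hv, w, hw, e⟩ := hc a' ha'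
    obtain ⟨v', hv', w', hw', e'⟩ := hc b' hb'
    refine (hmem _).2 ⟨a * a' + b * v, add_mem (mul_mem ha ha') (mul_mem hb hv),
      a * b' + b * w + b * v', add_mem (add_mem (mul_mem ha hb') (mul_mem hb hw))
        (mul_mem hb hv'), ?_⟩
    linear_combination (norm := noncomm_ring) b * e + b * e' * A + b * w' * hA

/-- the subring generated by finitely many `Tt a b` -/
theorem Tw.fin_T (H : Tw G) {S : Set R} (hS : S.Finite)
    (h : ∀ s ∈ S, ∃ a b : Rˣ, Dt G a ∧ Dt G b ∧ s = Tt (a : R) b) :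
    ((Subring.closure S : Subring R) : Set R).Finite := by
  induction S, hS using Set.Finite.induction_on with
  | empty => exact fin_zero H.t3
  | insert _ _ ih =>
    refine fin_t (ih fun s hs => h s (Set.mem_insert_of_mem _ hs)) ?_ ?_
    · intro s hs
      obtain ⟨a, b, ha, hb, rfl⟩ := h _ (Set.mem_insert _ _)
      obtain ⟨c, d, hc, hd, rfl⟩ := h s (Set.mem_insert_of_mem _ hs)
      have e1 := H.central ha hb hc
      have e2 := H.central ha hb hd
      set T := Tt (a : R) b
      rw [Tt]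
      linear_combination (norm := noncomm_ring) e1 * ((d : R) - 1) + ((c : R) - 1) * e2 +
        e2 * ((c : R) - 1) + ((d : R) - 1) * e1
    · obtain ⟨a, b, ha, hb, rfl⟩ := h _ (Set.mem_insert _ _)
      exact H.T_cube ha hb

/-- the subring generated by finitely many elements `Tt a b` and `a - 1` -/
theorem Tw.fin_D (H : Tw G) {U : Set Rˣ} (hU : U.Finite) (h : ∀ a ∈ U, Dt G a) :
    ((Subring.closure ((fun p : Rˣ × Rˣ => Tt (p.1 : R) p.2) '' (U ×ˢ U) ∪
      (fun a : Rˣ => (a : R) - 1) '' U) : Subring R) : Set R).Finite := by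
  set S := (fun p : Rˣ × Rˣ => Tt (p.1 : R) p.2) '' (U ×ˢ U) with hS
  have hT : ∀ s ∈ S, ∃ a b : Rˣ, Dt G a ∧ Dt G b ∧ s = Tt (a : R) b := by
    rintro _ ⟨⟨a, b⟩, ⟨ha, hb⟩, rfl⟩
    exact ⟨a, b, h a ha, h b hb, rfl⟩
  have key : ∀ V : Set Rˣ, V.Finite → V ⊆ U → ((Subring.closure (S ∪
      (fun a : Rˣ => (a : R) - 1) '' V) : Subring R) : Set R).Finite := by
    intro V hV
    induction V, hV using Set.Finite.induction_on with
    | empty =>
      intro _
      rw [Set.image_empty, Set.union_empty]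
      exact H.fin_T ((hU.prod hU).image _) hT
    | @insert a V _ _ ih =>
      intro hVU
      have haU : a ∈ U := hVU (Set.mem_insert _ _)
      have hVU' : V ⊆ U := fun x hx => hVU (Set.mem_insert_of_mem _ hx)
      rw [Set.image_insert_eq, Set.union_insert]
      refine fin_A (ih hVU') (H.sq (h a haU)) ?_
      rintro s (hs | ⟨b, hb, rfl⟩)
      · obtain ⟨c, d, hc, hd, rfl⟩ := hT s hs
        refine ⟨0, zero_mem _, _, Subring.subset_closure (Or.inl hs), ?_⟩
        have e := H.central hc hd (h a haU)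
        linear_combination (norm := noncomm_ring) -e
      · refine ⟨Tt (a : R) b, Subring.subset_closure (Or.inl ⟨(a, b), ⟨haU, hVU' hb⟩, rfl⟩),
          -((b : R) - 1), neg_mem (Subring.subset_closure (Or.inr ⟨b, hb, rfl⟩)), ?_⟩
        rw [Tt]
        noncomm_ring
  exact key U hU le_rfl

/-- finitely many elements of order three generate a finite group -/
theorem Tw.fin_cl (H : Tw G) {U : Set Rˣ} (hU : U.Finite) (h : ∀ a ∈ U, Dt G a) :
    Finite (Subgroup.closure U) := by
  have hf := H.fin_D hU h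
  set W := Subring.closure ((fun p : Rˣ × Rˣ => Tt (p.1 : R) p.2) '' (U ×ˢ U) ∪
      (fun a : Rˣ => (a : R) - 1) '' U) with hW
  have hA : ∀ a ∈ U, (a : R) - 1 ∈ W := fun a ha => Subring.subset_closure (Or.inr ⟨a, ha, rfl⟩)
  have hmem : ∀ g : Rˣ, g ∈ Subgroup.closure U → (g : R) ∈ W ∧ ((g⁻¹ : Rˣ) : R) ∈ W := by
    intro g hg
    refine Subgroup.closure_induction (p := fun (g : Rˣ) _ => (g : R) ∈ W ∧
      ((g⁻¹ : Rˣ) : R) ∈ W)
      ?_ ?_ ?_ ?_ hg
    · intro a ha
      constructor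
      · have : (a : R) = 1 + ((a : R) - 1) := by abel
        rw [this]
        exact add_mem (one_mem _) (hA a ha)
      · rw [H.inv_val (h a ha)]
        exact sub_mem (one_mem _) (hA a ha)
    · rw [inv_one, Units.val_one]
      exact ⟨one_mem _, one_mem _⟩
    · rintro x y _ _ ⟨h1, h2⟩ ⟨h3, h4⟩
      rw [mul_inv_rev, Units.val_mul, Units.val_mul]
      exact ⟨mul_mem h1 h3, mul_mem h4 h2⟩
    · rintro x _ ⟨h1, h2⟩
      rw [inv_inv]
      exact ⟨h2, h1⟩
  have : Finite W := hf
  exact Finite.of_injective (fun g : Subgroup.closure U => (⟨((g : Rˣ) : R), (hmem g g.2).1⟩ : W))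
    fun x y hxy => Subtype.ext (Units.ext (congrArg Subtype.val hxy))

/-- elements of a subgroup generated by a set are in one generated by a finite part of it -/
theorem fin_part {M : Type u} [Group M] {D : Set M} {T : Set M} (hT : T.Finite)
    (h : ∀ x ∈ T, x ∈ Subgroup.closure D) :
    ∃ U : Set M, U.Finite ∧ U ⊆ D ∧ ∀ x ∈ T, x ∈ Subgroup.closure U := by
  have h1 : ∀ x ∈ Subgroup.closure D, ∃ U : Set M, U.Finite ∧ U ⊆ D ∧
      x ∈ Subgroup.closure U := by
    intro x hx
    refine Subgroup.closure_induction (p := fun x _ => ∃ U : Set M, U.Finite ∧ U ⊆ D ∧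
      x ∈ Subgroup.closure U) ?_ ?_ ?_ ?_ hx
    · intro x hx
      exact ⟨{x}, Set.finite_singleton x, Set.singleton_subset_iff.2 hx,
        Subgroup.subset_closure rfl⟩
    · exact ⟨∅, Set.finite_empty, Set.empty_subset _, one_mem _⟩
    · rintro x y _ _ ⟨U, h1, h2, h3⟩ ⟨V, h4, h5, h6⟩
      exact ⟨U ∪ V, h1.union h4, Set.union_subset h2 h5,
        mul_mem (Subgroup.closure_mono Set.subset_union_left h3)
          (Subgroup.closure_mono Set.subset_union_right h6)⟩
    · rintro x _ ⟨U, h1, h2, h3⟩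
      exact ⟨U, h1, h2, inv_mem h3⟩
  choose! f hf using h1
  refine ⟨⋃ x ∈ T, f x, hT.biUnion fun x hx => (hf x (h x hx)).1,
    Set.iUnion₂_subset fun x hx => (hf x (h x hx)).2.1, fun x hx => ?_⟩
  exact Subgroup.closure_mono (Set.subset_biUnion_of_mem hx) (hf x (h x hx)).2.2

theorem lf_sub {M : Type u} [Group M] {K : Subgroup M}
    (h : ∀ T : Set M, T.Finite → (∀ x ∈ T, x ∈ K) → Finite (Subgroup.closure T)) : LFin K := by
  intro S hS
  have h1 := h (K.subtype '' S) (hS.image _) (by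
    rintro _ ⟨x, -, rfl⟩
    exact x.2)
  rw [← MonoidHom.map_closure] at h1
  exact Finite.of_injective (fun x : Subgroup.closure S => (⟨K.subtype x, x, x.2, rfl⟩ :
    (Subgroup.closure S).map K.subtype)) fun x y hxy => Subtype.ext (Subtype.ext
      (congrArg (fun z : (Subgroup.closure S).map K.subtype => (z : M)) hxy))

/-- The group generated by the elements of order three is locally finite. -/
theorem Tw.lf_X (H : Tw G) : LFin (Subgroup.closure {a | Dt G a}) := by
  refine lf_sub fun T hT h => ?_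
  obtain ⟨U, hU, hUD, hTU⟩ := fin_part hT h
  have h1 := H.fin_cl hU hUD
  exact Finite.of_injective (Subgroup.inclusion ((Subgroup.closure_le _).2 hTU))
    (Subgroup.inclusion_injective _)

theorem lf_four {M : Type u} [Group M] (h : ∀ x : M, x ^ 4 = 1) : LFin M := by
  intro S hS
  have := H15.Burn.fin4 h hS.toFinset
  rw [Set.Finite.coe_toFinset] at this
  exact this

/-- The group is locally finite. -/
theorem Tw.lf (H : Tw G) : LFin G := by
  set X := Subgroup.closure {a : G | Dt G (a : Rˣ)} with hX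
  have hXn : X.Normal := by
    refine ⟨fun x hx g => ?_⟩
    refine Subgroup.closure_induction (p := fun x _ => g * x * g⁻¹ ∈ X) ?_ ?_ ?_ ?_ hx
    · intro x hx
      exact Subgroup.subset_closure (show Dt G ((g * x * g⁻¹ : G) : Rˣ) from
        Dt.conj (show Dt G (x : Rˣ) from hx) g.2)
    · rw [mul_one, mul_inv_cancel]
      exact one_mem _
    · intro x y _ _ h1 h2
      have : g * (x * y) * g⁻¹ = (g * x * g⁻¹) * (g * y * g⁻¹) := by group
      rw [this]
      exact mul_mem h1 h2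
    · intro x _ h1
      have : g * x⁻¹ * g⁻¹ = (g * x * g⁻¹)⁻¹ := by group
      rw [this]
      exact inv_mem h1
  refine schmidt (QuotientGroup.mk' X) ?_ ?_
  · rw [QuotientGroup.ker_mk']
    refine LFin.inj (H := Subgroup.closure {a | Dt G a})
      { toFun := fun x => ⟨((x : G) : Rˣ), ?_⟩
        map_one' := rfl
        map_mul' := fun _ _ => rfl } (fun x y hxy => Subtype.ext (Subtype.ext
          (congrArg (fun z : Subgroup.closure {a | Dt G a} => (z : Rˣ)) hxy))) H.lf_X
    have hx := x.2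
    have h1 : (X.map G.subtype) ≤ Subgroup.closure {a | Dt G a} := by
      rw [hX, MonoidHom.map_closure, Subgroup.closure_le]
      rintro _ ⟨y, hy, rfl⟩
      exact Subgroup.subset_closure hy
    exact h1 ⟨x, hx, rfl⟩
  · refine LFin.inj (MonoidHom.range _).subtype (Subgroup.subtype_injective _) (lf_four ?_)
    intro x
    obtain ⟨g, rfl⟩ := QuotientGroup.mk_surjective x
    rw [← QuotientGroup.mk_pow, QuotientGroup.eq_one_iff]
    refine Subgroup.subset_closure ?_
    change Dt G ((g ^ 4 : G) : Rˣ)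
    refine ⟨(g ^ 4).2, ?_⟩
    rw [Subgroup.coe_pow, ← pow_mul]
    exact H.pow12 g.2

end

end Pool.Agent.Helper140_T12
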