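import Pool.Agent.Helper140_T12.Fn
import Pool.Agent.Helper140_T12.Ex3
import Pool.Agent.Helper140_E5.Hyp3

/-!
# Groups of exponent twelve: normal subgroups of exponent three
-/

set_option autoImplicit false

namespace Pool.Agent.Helper140_T12

open Pool.Agent.Helper140_E5
open Subgroup
open scoped commutatorElement

universe u v

theorem lfq_of {G : Type u} {K : Type v} [Group G] [Group K] (f : G →* K) (h : LFin f.range) :
    LFq f.ker := by
  intro S hS
  rw [relIndex_ker, MonoidHom.map_closure]
  have h1 := h (f.rangeRestrict '' S) (hS.image _)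
  have h2 : closure (f '' S) = (closure (f.rangeRestrict '' S)).map f.range.subtype := by
    rw [MonoidHom.map_closure, ← Set.image_comp]
    rfl
  rw [h2]
  have h3 : Finite ((closure (f.rangeRestrict '' S)).map f.range.subtype) :=
    Finite.of_surjective (fun x : closure (f.rangeRestrict '' S) => (⟨_, x, x.2, rfl⟩ :
      (closure (f.rangeRestrict '' S)).map f.range.subtype)) (by
        rintro ⟨_, x, hx, rfl⟩
        exact ⟨⟨x, hx⟩, rfl⟩)
  exact Nat.card_pos.ne'

section
variable {G : Type u} [Group G]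

/-- the ring of endomorphisms of an abelian normal subgroup of exponent three -/
theorem ab_tw (h12 : ∀ x : G, x ^ 12 = 1) {N : Subgroup G} (hN : N.Normal)
    (hab : ∀ x ∈ N, ∀ y ∈ N, x * y = y * x) (h3 : ∀ x ∈ N, x ^ 3 = 1) :
    Tw ((cj hN hab).toHomUnits).range := by
  constructor
  · refine AddMonoidHom.ext fun v => tN_inj ?_
    have e : (3 : AddMonoid.End (NV N hab)) v = (3 : ℕ) • v := rfl
    exact (congrArg tN e).trans (by rw [tN_nsmul, h3 _ (tN_mem v)]; rfl)
  · rintro _ ⟨g, rfl⟩
    refine AddMonoidHom.ext fun v => tN_inj ?_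
    have e4 : ((cj hN hab).toHomUnits g : AddMonoid.End (NV N hab)) ^ 4 = cj hN hab (g ^ 4) :=
      (map_pow (cj hN hab) g 4).symm
    have e8 : ((cj hN hab).toHomUnits g : AddMonoid.End (NV N hab)) ^ 8 = cj hN hab (g ^ 8) :=
      (map_pow (cj hN hab) g 8).symm
    rw [e4, e8]
    change (g ^ 8 * tN v * (g ^ 8)⁻¹) * (g ^ 4 * tN v * (g ^ 4)⁻¹) * tN v = 1
    set n := tN v with hn
    have hnN : n ∈ N := tN_mem v
    have hc1 : g ^ 4 * n * (g ^ 4)⁻¹ ∈ N := hN.conj_mem n hnN _
    have hc2 : g ^ 8 * n * (g ^ 8)⁻¹ ∈ N := hN.conj_mem n hnN _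
    set m := n * (g ^ 4 * n * (g ^ 4)⁻¹) * (g ^ 8 * n * (g ^ 8)⁻¹) with hm
    have hmN : m ∈ N := mul_mem (mul_mem hnN hc1) hc2
    have e1 : m = (n * g ^ 4) ^ 3 := by
      have hg : g ^ 12 = 1 := h12 g
      have : m * g ^ 12 = (n * g ^ 4) ^ 3 := by
        rw [hm]
        simp only [pow_succ, pow_zero, one_mul, mul_inv_rev, mul_assoc, inv_mul_cancel_left]
      rw [← this, hg, mul_one]
    have e2 : m ^ 4 = 1 := by
      rw [e1, ← pow_mul]
      exact h12 _
    have e3 : m = 1 := by
      have := h3 m hmN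
      rw [pow_succ, this, one_mul] at e2
      exact e2
    rw [hab _ (mul_mem hc2 hc1) _ hnN, hab _ hc2 _ hc1, ← mul_assoc]
    exact e3

theorem ker_cj {N : Subgroup G} (hN : N.Normal) (hab : ∀ x ∈ N, ∀ y ∈ N, x * y = y * x) :
    ((cj hN hab).toHomUnits).ker = centralizer (N : Set G) := by
  ext g
  rw [MonoidHom.mem_ker, mem_centralizer_iff]
  constructor
  · intro hg n hn
    have h4 : cj hN hab g = 1 := congrArg Units.val hg
    have h5 := congrArg (fun φ : AddMonoid.End (NV N hab) => tN (φ (fN hn))) h4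
    change g * n * g⁻¹ = n at h5
    exact (mul_inv_eq_iff_eq_mul.1 h5).symm
  · intro hg
    refine Units.ext ?_
    refine AddMonoidHom.ext fun v => tN_inj ?_
    change g * tN v * g⁻¹ = tN v
    rw [← hg _ (tN_mem v), mul_inv_cancel_right]

/-- abelian normal subgroups of exponent three -/
theorem ab_lfq (h12 : ∀ x : G, x ^ 12 = 1) {N : Subgroup G} (hN : N.Normal)
    (hab : ∀ x ∈ N, ∀ y ∈ N, x * y = y * x) (h3 : ∀ x ∈ N, x ^ 3 = 1) :
    LFq (centralizer (N : Set G)) := by
  rw [← ker_cj hN hab]
  exact lfq_of _ (ab_tw h12 hN hab h3).lf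

/-- abelian normal sections of exponent three -/
theorem sec_lfq (h12 : ∀ x : G, x ^ 12 = 1) (M N : Subgroup G) [M.Normal] [hN : N.Normal]
    (hab : ⁅N, N⁆ ≤ M) (h3 : ∀ x ∈ N, x ^ 3 ∈ M) : LFq (Cs M N) := by
  set π := QuotientGroup.mk' M with hπ
  have hπs : Function.Surjective π := QuotientGroup.mk'_surjective M
  have h := ab_lfq (G := G ⧸ M) (fun x => by
    obtain ⟨g, rfl⟩ := hπs x
    rw [← map_pow, h12, map_one]) (hN.map π hπs) (by
      rintro _ ⟨x, hx, rfl⟩ _ ⟨y, hy, rfl⟩
      rw [← commutatorElement_eq_one_iff_mul_comm, ← map_commutatorElement]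
      exact (QuotientGroup.eq_one_iff _).2 (hab (commutator_mem_commutator hx hy))) (by
      rintro _ ⟨x, hx, rfl⟩
      rw [← map_pow]
      exact (QuotientGroup.eq_one_iff _).2 (h3 x hx))
  intro S hS
  rw [Cs, relIndex_comap, MonoidHom.map_closure]
  exact h _ (hS.image _)

/-- Soluble normal subgroups of exponent three: every finitely generated subgroup acts as a
finite group. -/
theorem sol3_lfq (h12 : ∀ x : G, x ^ 12 = 1) (l : ℕ) : ∀ N : Subgroup G, N.Normal → ds N l = ⊥ →
    (∀ x ∈ N, x ^ 3 = 1) → LFq (centralizer (N : Set G)) := by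
  induction l with
  | zero =>
    intro N _ hN _ S _
    have : N = ⊥ := hN
    subst this
    have e : centralizer ((⊥ : Subgroup G) : Set G) = ⊤ := by
      rw [eq_top_iff]
      intro g _
      rw [mem_centralizer_iff]
      intro x hx
      rw [SetLike.mem_coe, mem_bot] at hx
      rw [hx, one_mul, mul_one]
    rw [e, relIndex_top_left]
    exact one_ne_zero
  | succ l ih =>
    intro N hN hl h3
    have hN' : (⁅N, N⁆ : Subgroup G).Normal := commutator_normal _ _
    have hNN : (⁅N, N⁆ : Subgroup G) ≤ N := comm_self_le N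
    have i1 : LFq (Cs ⁅N, N⁆ N) := sec_lfq h12 ⁅N, N⁆ N le_rfl fun x hx => by
      rw [h3 x hx]
      exact one_mem _
    have i2 : LFq (centralizer ((⁅N, N⁆ : Subgroup G) : Set G)) :=
      ih ⁅N, N⁆ hN' (by rw [ds_shift]; exact hl) fun x hx => h3 x (hNN hx)
    refine (i1.inf i2).chain fun S hS hSD => ?_
    set H := closure S with hH
    have hCn : (centralizer (N : Set G)).Normal := inferInstance
    set C' := (centralizer (N : Set G)).subgroupOf H with hC'
    have hlf : LFin (H ⧸ C') := by
      refine lf_comm ?_ (n := 12) (by norm_num) ?_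
      · intro x y
        obtain ⟨x, rfl⟩ := QuotientGroup.mk_surjective x
        obtain ⟨y, rfl⟩ := QuotientGroup.mk_surjective y
        have : ⁅x, y⁆ ∈ C' := by
          rw [hC', mem_subgroupOf]
          have hx := hSD x.2
          have hy := hSD y.2
          exact stab_comm hx.1 hx.2 hy.1 hy.2
        have h1 := (QuotientGroup.eq_one_iff (N := C') _).2 this
        change (QuotientGroup.mk' C') ⁅x, y⁆ = 1 at h1
        rw [map_commutatorElement] at h1
        exact commutatorElement_eq_one_iff_mul_comm.1 h1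
      · intro x
        obtain ⟨x, rfl⟩ := QuotientGroup.mk_surjective x
        rw [← QuotientGroup.mk_pow]
        have : x ^ 12 = 1 := Subtype.ext (h12 x)
        rw [this, QuotientGroup.mk_one]
    have h3 : Group.FG H := by
      rw [Group.fg_iff_subgroup_fg]
      exact ⟨hS.toFinset, by rw [Set.Finite.coe_toFinset]⟩
    have h4 : Group.FG (H ⧸ C') := QuotientGroup.fg C'
    obtain ⟨T, hT⟩ := h4.out
    have h6 := hlf T T.finite_toSet
    rw [hT] at h6
    have h7 : Finite (H ⧸ C') := Finite.of_injective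
      (fun k => (⟨k, trivial⟩ : (⊤ : Subgroup (H ⧸ C')))) fun x y hxy => congrArg Subtype.val hxy
    have h8 : C'.FiniteIndex := Subgroup.finiteIndex_of_finite_quotient
    exact h8.index_ne_zero

/-- Normal subgroups of exponent three: every finitely generated subgroup acts as a
finite group. -/
theorem n3_lfq (h12 : ∀ x : G, x ^ 12 = 1) {N : Subgroup G} (hN : N.Normal)
    (h3 : ∀ x ∈ N, x ^ 3 = 1) : LFq (centralizer (N : Set G)) :=
  sol3_lfq h12 2 N hN (exists_ds 2 (meta3 fun x : N => Subtype.ext (h3 x x.2))) h3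

end

/-- uniform bounds -/
theorem n3_index (d : ℕ) : ∃ m : ℕ, ∀ (G : Type u) [Group G] (a : Fin d → G)
    (N : Subgroup G), (∀ x : G, x ^ 12 = 1) → N.Normal → (∀ x ∈ N, x ^ 3 = 1) →
    (centralizer (N : Set G)).relIndex (closure (Set.range a)) ≤ m := by
  by_contra hcon
  push Not at hcon
  choose G iG a N h12 hN h3 hm using hcon
  have hN' := pN_normal hN
  set a' : Fin d → ∀ m, G m := fun i m => a m i with ha'
  have h1 := n3_lfq (fun x => funext fun m => h12 m (x m)) hN'
    (fun x hx => funext fun m => h3 m _ (hx m)) (Set.range a') (Set.finite_range _)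
  set q := (centralizer ((pN N : Subgroup (∀ m, G m)) : Set (∀ m, G m))).relIndex
    (closure (Set.range a')) with hq
  have h2 := hm q
  set π : (∀ m, G m) →* G q := Pi.evalMonoidHom G q with hπ
  have h3 : (closure (Set.range a')).map π = closure (Set.range (a q)) := by
    rw [MonoidHom.map_closure, ← Set.range_comp]
    rfl
  rw [← h3, ← relIndex_comap] at h2
  refine absurd ?_ (not_le.2 h2)
  refine relIndex_le_of_le_left ?_ h1
  intro x hx
  rw [mem_comap, mem_centralizer_iff]
  intro n hn
  rw [mem_centralizer_iff] at hx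
  have h4 := hx (Pi.mulSingle q n) (by
    intro m
    by_cases hmq : m = q
    · subst hmq
      rw [Pi.mulSingle_eq_same]
      exact hn
    · rw [Pi.mulSingle_eq_of_ne hmq]
      exact one_mem _)
  have h5 := congrFun h4 q
  rw [Pi.mul_apply, Pi.mul_apply, Pi.mulSingle_eq_same] at h5
  exact h5

end Pool.Agent.Helper140_T12
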