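import Pool.Agent.Helper140_T12.Sp
import Pool.Agent.TH69.OkF

/-!
# Groups of exponent twelve: locally finite normal subgroups without normal `2`-subgroups
-/

set_option autoImplicit false

namespace Pool.Agent.Helper140_T12

open Pool.Agent.Helper140_E5
open Subgroup
open scoped commutatorElement

universe u v

/-- the starting theorem `TwoGenerators` for the exponent twelve -/
theorem exists_prime (Q : Type u) [Group Q] (h12 : ∀ x : Q, x ^ 12 = 1) (hlf : LFin Q)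
    (hnt : Nontrivial Q) : ∃ N : Subgroup Q, N.Normal ∧ N ≠ ⊥ ∧
      ((∀ x ∈ N, x ^ 3 = 1) ∨ (∀ x ∈ N, x ^ 4 = 1)) := by
  have T : Pool.Agent.TH69.Og.TrS 12 := Pool.Agent.TH69.Ok.trS' (by norm_num) ⟨by
    intro m hm h
    have h1 := Nat.le_of_dvd (by norm_num) h
    have h2 : 4 ≤ 2 ^ m := by
      calc 4 = 2 ^ 2 := by norm_num
        _ ≤ 2 ^ m := Nat.pow_le_pow_right (by norm_num) hm
    have h3 : 3 ≤ 2 ^ m - 1 := by omega
    have h4 : 9 ≤ (2 ^ m - 1) ^ 2 := by nlinarith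
    have h5 : 4 * 9 ≤ 2 ^ m * (2 ^ m - 1) ^ 2 := Nat.mul_le_mul h2 h4
    omega, 2, 2, by
    intro r hr h2 h
    exfalso
    have h1 := Nat.le_of_dvd (by norm_num) h
    have h3 : r ≤ 3 := by nlinarith
    have h4 : 2 ≤ r := hr.two_le
    interval_cases r
    · exact h2 rfl
    · norm_num at h⟩
  obtain ⟨p, k, hp, hk, N, h1, h2, h3⟩ := Pool.Agent.TH69.Og.exists_normalS T Q h12
    (fun x y => hlf {x, y} (by simp)) (Or.inl (by
      have : Nat.primeFactors 12 ⊆ {2, 3} := by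
        intro p hp
        rw [Nat.mem_primeFactors] at hp
        have h5 : p ∣ 2 ^ 2 * 3 := hp.2.1
        rcases hp.1.dvd_mul.1 h5 with h6 | h6
        · simp [(Nat.prime_dvd_prime_iff_eq hp.1 Nat.prime_two).1 (hp.1.dvd_of_dvd_pow h6)]
        · simp [(Nat.prime_dvd_prime_iff_eq hp.1 Nat.prime_three).1 h6]
      exact (Finset.card_le_card this).trans (by decide))) hnt
  refine ⟨N, h1, h2, ?_⟩
  by_cases hp2 : p = 2
  · right
    intro x hx
    subst hp2
    have h4 : 2 ^ k ∣ 4 := Nat.Coprime.dvd_of_dvd_mul_right (k := 2 ^ k) (n := 3) (m := 4)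
      (Nat.Coprime.pow_left _ (by norm_num)) hk
    obtain ⟨c, hc⟩ := h4
    rw [hc, pow_mul, h3 x hx, one_pow]
  · left
    intro x hx
    by_cases hp3 : p = 3
    · subst hp3
      have h4 : 3 ^ k ∣ 3 := Nat.Coprime.dvd_of_dvd_mul_right (k := 3 ^ k) (n := 4) (m := 3)
        (Nat.Coprime.pow_left _ (by norm_num)) hk
      obtain ⟨c, hc⟩ := h4
      have h5 : x ^ 3 = x ^ (3 ^ k * c) := congrArg (x ^ ·) hc
      rw [h5, pow_mul, h3 x hx, one_pow]
    · have h4 : Nat.Coprime p 12 := by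
        rw [Nat.Prime.coprime_iff_not_dvd hp]
        intro h
        have h5 : p ∣ 2 ^ 2 * 3 := h
        rcases hp.dvd_mul.1 h5 with h6 | h6
        · exact hp2 ((Nat.prime_dvd_prime_iff_eq hp Nat.prime_two).1 (hp.dvd_of_dvd_pow h6))
        · exact hp3 ((Nat.prime_dvd_prime_iff_eq hp Nat.prime_three).1 h6)
      have h5 : p ^ k = 1 := Nat.eq_one_of_dvd_coprimes (Nat.Coprime.pow_left k h4) dvd_rfl hk
      have h6 := h3 x hx
      rw [h5, pow_one] at h6
      rw [h6, one_pow]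

section
variable {G : Type u} [Group G]

/-- the largest normal subgroup of exponent `q` -/
theorem exists_Oq {q : ℕ} (hq : ∀ x : G, x ^ (q * q) = 1 → x ^ q = 1) : ∃ P : Subgroup G,
    P.Normal ∧ (∀ x ∈ P, x ^ q = 1) ∧ ∀ L : Subgroup G, L.Normal → (∀ x ∈ L, x ^ q = 1) →
      L ≤ P := by
  refine ⟨{ carrier := {x | ∃ L : Subgroup G, L.Normal ∧ (∀ y ∈ L, y ^ q = 1) ∧ x ∈ L}
            one_mem' := ⟨⊥, inferInstance, fun y hy => by
              rw [mem_bot] at hy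
              rw [hy, one_pow], one_mem _⟩
            mul_mem' := ?_
            inv_mem' := fun {x} ⟨L, h1, h3, h4⟩ => ⟨L, h1, h3, inv_mem h4⟩ }, ?_, ?_, ?_⟩
  · rintro x y ⟨L, h1, h3, h4⟩ ⟨K, k1, k3, k4⟩
    refine ⟨L ⊔ K, inferInstance, ?_, mul_mem (mem_sup_left h4) (mem_sup_right k4)⟩
    intro z hz
    have hz' : z ∈ ((L ⊔ K : Subgroup G) : Set G) := hz
    rw [mul_normal] at hz'
    obtain ⟨a, ha, b, hb, rfl⟩ := hz'
    have h5 : (a * b) ^ q ∈ K := by
      rw [← QuotientGroup.eq_one_iff (N := K), QuotientGroup.mk_pow, QuotientGroup.mk_mul,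
        (QuotientGroup.eq_one_iff b).2 hb, mul_one, ← QuotientGroup.mk_pow, h3 a ha,
        QuotientGroup.mk_one]
    refine hq _ ?_
    change (a * b) ^ (q * q) = 1
    rw [pow_mul, k3 _ h5]
  · refine ⟨fun x hx g => ?_⟩
    obtain ⟨L, h1, h3, h4⟩ := hx
    exact ⟨L, h1, h3, h1.conj_mem x h4 g⟩
  · rintro x ⟨L, h1, h3, h4⟩
    exact h3 x h4
  · intro L h1 h3 x hx
    exact ⟨L, h1, h3, hx⟩

theorem exists_Oq_sub {q : ℕ} (hq : ∀ x : G, x ^ (q * q) = 1 → x ^ q = 1) {C : Subgroup G}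
    (hC : C.Normal) {L : Subgroup C} (hL : L.Normal) (hL1 : L ≠ ⊥) (hLq : ∀ x ∈ L, x ^ q = 1) :
    ∃ P : Subgroup G, P.Normal ∧ P ≤ C ∧ P ≠ ⊥ ∧ ∀ x ∈ P, x ^ q = 1 := by
  obtain ⟨P, hP, hPq, hPm⟩ := exists_Oq (G := C) (q := q) (fun x hx => Subtype.ext
    (hq x (congrArg Subtype.val hx)))
  refine ⟨P.map C.subtype, ⟨?_⟩, map_subtype_le P, ?_, ?_⟩
  · rintro _ ⟨x, hx, rfl⟩ g
    have h1 : P.map (MulAut.conjNormal (H := C) g).toMonoidHom ≤ P := by
      refine hPm _ (hP.map _ (MulAut.conjNormal (H := C) g).surjective) ?_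
      rintro _ ⟨y, hy, rfl⟩
      rw [← map_pow, hPq y hy, map_one]
    have h2 := h1 ⟨x, hx, rfl⟩
    refine ⟨_, h2, ?_⟩
    exact MulAut.conjNormal_apply g x
  · intro h
    apply hL1
    rw [eq_bot_iff]
    intro x hx
    have h1 : (x : G) ∈ P.map C.subtype := ⟨x, hPm L hL hLq hx, rfl⟩
    rw [h, mem_bot] at h1
    rw [mem_bot]
    exact Subtype.ext h1
  · rintro _ ⟨x, hx, rfl⟩
    have := hPq x hx
    exact congrArg Subtype.val this

theorem four_of_sixteen (h12 : ∀ x : G, x ^ 12 = 1) {x : G} (h : x ^ (4 * 4) = 1) :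
    x ^ 4 = 1 := by
  have h1 := h12 x
  have e : x ^ (4 * 4) = x ^ 12 * x ^ 4 := by rw [← pow_add]
  rw [e, h1, one_mul] at h
  exact h

/-- subgroups `A` of the centraliser with `A / (A ∩ P)` of exponent three or four -/
theorem A_le (h12 : ∀ x : G, x ^ 12 = 1) {N P A : Subgroup G}
    (h2 : ∀ L : Subgroup G, L.Normal → L ≤ N → (∀ x ∈ L, x ^ 4 = 1) → L = ⊥)
    (hP3 : ∀ x ∈ P, x ^ 3 = 1)
    (hPmax : ∀ L : Subgroup G, L.Normal → L ≤ N → (∀ x ∈ L, x ^ 3 = 1) → L ≤ P)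
    (hA : A.Normal) (hAN : A ≤ N) (hAC : A ≤ centralizer (P : Set G))
    (h : (∀ x ∈ A, x ^ 3 ∈ P) ∨ (∀ x ∈ A, x ^ 4 ∈ P)) : A ≤ P := by
  rcases h with h | h5
  · refine hPmax A hA hAN fun x hx => three_of_nine h12 ?_
    have e : x ^ 9 = (x ^ 3) ^ 3 := by rw [← pow_mul]
    rw [e, hP3 _ (h x hx)]
  · have hmul : ∀ x ∈ A, ∀ y ∈ A, x ^ 4 = 1 → y ^ 4 = 1 → (x * y) ^ 4 = 1 := by
      intro x hx y hy hx4 hy4
      have := A_two (A := A) (fun a => Subtype.ext (h12 a)) (Z := P.subgroupOf A) (by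
        intro a ha
        rw [mem_center_iff]
        intro b
        have hb : (b : G) ∈ centralizer (P : Set G) := hAC b.2
        exact Subtype.ext (mem_centralizer_iff.1 hb _ ha).symm) (fun a => h5 a a.2)
        (x := ⟨x, hx⟩) (y := ⟨y, hy⟩) (Subtype.ext hx4) (Subtype.ext hy4)
      exact congrArg Subtype.val this
    have h6 := h2 { carrier := {x | x ∈ A ∧ x ^ 4 = 1}
                    one_mem' := ⟨one_mem _, one_pow _⟩
                    mul_mem' := fun {x y} hx hy => ⟨mul_mem hx.1 hy.1,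
                      hmul x hx.1 y hy.1 hx.2 hy.2⟩
                    inv_mem' := fun {x} hx => ⟨inv_mem hx.1, by
                      rw [inv_pow, hx.2, inv_one]⟩ } ⟨fun x hx g =>
                        ⟨hA.conj_mem x hx.1 g, by
                          rw [conj_pow, hx.2, mul_one, mul_inv_cancel]⟩⟩
      (fun x hx => hAN hx.1) (fun x hx => hx.2)
    refine hPmax A hA hAN fun x hx => ?_
    have h7 : x ^ 3 ∈ (⊥ : Subgroup G) := by
      rw [← h6]
      refine ⟨pow_mem hx 3, ?_⟩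
      rw [← pow_mul]
      exact h12 x
    exact mem_bot.1 h7

/-- the largest normal subgroup of exponent three contains its centraliser -/
theorem cen_lf (h12 : ∀ x : G, x ^ 12 = 1) {N : Subgroup G} (hN : N.Normal) (hlf : LFin N)
    (h2 : ∀ L : Subgroup G, L.Normal → L ≤ N → (∀ x ∈ L, x ^ 4 = 1) → L = ⊥) :
    ∃ P : Subgroup G, P.Normal ∧ P ≤ N ∧ (∀ x ∈ P, x ^ 3 = 1) ∧
      N ⊓ centralizer (P : Set G) ≤ P := by
  obtain ⟨P, hP, hPN, hP3, hPmax⟩ := exists_O3 h12 N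
  refine ⟨P, hP, hPN, hP3, ?_⟩
  set C := N ⊓ centralizer (P : Set G) with hC
  have hCn : C.Normal := by
    have : (centralizer (P : Set G)).Normal := inferInstance
    exact normal_inf_normal _ _
  by_contra hcon
  obtain ⟨c, hcC, hcP⟩ := SetLike.not_le_iff_exists.1 hcon
  set Z := C ⊓ P with hZ
  have hZn : Z.Normal := normal_inf_normal _ _
  set π := QuotientGroup.mk' Z with hπ
  have hπs : Function.Surjective π := QuotientGroup.mk'_surjective Z
  have h12' : ∀ x : G ⧸ Z, x ^ 12 = 1 := fun x => by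
    obtain ⟨g, rfl⟩ := hπs x
    rw [← map_pow, h12, map_one]
  have hCb : (C.map π).Normal := hCn.map π hπs
  have hker : ∀ x : G, π x = 1 ↔ x ∈ Z := fun x => QuotientGroup.eq_one_iff x
  have hlfC : LFin (C.map π) := by
    refine LFin.surj (π.subgroupMap C) (π.subgroupMap_surjective C) ?_
    exact LFin.inj (Subgroup.inclusion (inf_le_left : C ≤ N)) (Subgroup.inclusion_injective _) hlf
  have hnt : Nontrivial (C.map π) := by
    refine ⟨⟨⟨π c, c, hcC, rfl⟩, 1, fun h => hcP ?_⟩⟩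
    have h1 : π c = 1 := congrArg Subtype.val h
    exact ((hker c).1 h1).2
  obtain ⟨L, hL, hL1, hLq⟩ := exists_prime (C.map π) (fun x => Subtype.ext (h12' x)) hlfC hnt
  have hex : ∃ Ab : Subgroup (G ⧸ Z), Ab.Normal ∧ Ab ≤ C.map π ∧ Ab ≠ ⊥ ∧
      ((∀ x ∈ Ab, x ^ 3 = 1) ∨ (∀ x ∈ Ab, x ^ 4 = 1)) := by
    rcases hLq with h | h
    · obtain ⟨Ab, a1, a2, a3, a4⟩ := exists_Oq_sub (q := 3) (fun x hx => three_of_nine h12' hx)
        hCb hL hL1 h
      exact ⟨Ab, a1, a2, a3, Or.inl a4⟩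
    · obtain ⟨Ab, a1, a2, a3, a4⟩ := exists_Oq_sub (q := 4) (fun x hx => four_of_sixteen h12' hx)
        hCb hL hL1 h
      exact ⟨Ab, a1, a2, a3, Or.inr a4⟩
  obtain ⟨Ab, a1, a2, a3, a4⟩ := hex
  have hAn : (Ab.comap π ⊓ C).Normal := by
    have : (Ab.comap π).Normal := inferInstance
    exact normal_inf_normal _ _
  have hAP : Ab.comap π ⊓ C ≤ P := by
    refine A_le h12 h2 hP3 hPmax hAn (inf_le_right.trans inf_le_left)
      (inf_le_right.trans inf_le_right) ?_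
    rcases a4 with h | h
    · left
      rintro x ⟨hx, -⟩
      have h1 := h _ hx
      rw [← map_pow] at h1
      exact ((hker _).1 h1).2
    · right
      rintro x ⟨hx, -⟩
      have h1 := h _ hx
      rw [← map_pow] at h1
      exact ((hker _).1 h1).2
  apply a3
  rw [eq_bot_iff]
  intro y hy
  obtain ⟨x, hx, rfl⟩ := a2 hy
  have h1 : x ∈ P := hAP ⟨hy, hx⟩
  rw [mem_bot]
  exact (hker x).2 ⟨hx, h1⟩

end

end Pool.Agent.Helper140_T12
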