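import Pool.Agent.Helper140_T12.Pr

/-!
# Involutions acting on elements of order three
-/

set_option autoImplicit false

namespace Pool.Agent.Helper140_T12

universe u

section
variable {R : Type u} [Ring R] {G : Subgroup Rˣ}

/-- the centraliser of a ring element -/
def Cn (x : R) : Subgroup Rˣ where
  carrier := {g | Commute x (g : R)}
  one_mem' := by
    change Commute x ((1 : Rˣ) : R)
    rw [Units.val_one]
    exact Commute.one_right x
  mul_mem' {g h} hg hh := by
    change Commute x ((g * h : Rˣ) : R)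
    rw [Units.val_mul]
    exact Commute.mul_right hg hh
  inv_mem' {g} hg := Commute.units_inv_right (show Commute x (g : R) from hg)

theorem mem_Cn {x : R} {g : Rˣ} : g ∈ Cn x ↔ x * g = g * x := Iff.rfl

theorem rt_mem {K : Subgroup Rˣ} {a b : Rˣ} (ha : a ∈ K) (hb : b ∈ K) : rt a b ∈ K :=
  mul_mem (inv_mem (pow_mem (mul_mem ha hb) 3)) (pow_mem (mul_mem hb ha) 3)

theorem Tw.rt_one (H : Tw G) {a b : Rˣ} (ha : Dt G a) (hb : Dt G b) :
    (1 - ep (a : R) b) * (rt a b : Rˣ) = 1 - ep (a : R) b := by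
  obtain ⟨h1, h2, h3, h4⟩ := H.es ha hb
  rw [H.rt_val ha hb]
  linear_combination (norm := noncomm_ring)
    h3 - h3 * (((a * b)⁻¹ * (b * a) : Rˣ) : R)

theorem Tw.z_mem (H : Tw G) {a b : Rˣ} (ha : Dt G a) (hb : Dt G b) : (a * b) ^ 6 ∈ G := by
  have := H
  exact pow_mem (mul_mem ha.1 hb.1) 6

theorem Tw.z_sq (H : Tw G) {a b : Rˣ} (ha : Dt G a) (hb : Dt G b) :
    (a * b) ^ 6 * (a * b) ^ 6 = 1 := by
  rw [← pow_add]
  exact H.pow12 (mul_mem ha.1 hb.1)

/-- what commutes with `Tt a b` commutes with `(a b) ^ 6` -/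
theorem Tw.z_comm (H : Tw G) {a b x : Rˣ} (ha : Dt G a) (hb : Dt G b)
    (hx : x ∈ Cn (Tt (a : R) b)) : (a * b) ^ 6 * x = x * (a * b) ^ 6 := by
  refine Units.ext ?_
  rw [Units.val_mul, Units.val_mul, H.z_val ha hb, add_mul, mul_add, one_mul, mul_one,
    ep_comm (mem_Cn.1 hx)]

theorem conj_pow' {M : Type u} [Group M] {z x : M} (hz : z * z = 1) (n : ℕ) :
    (z * x * z) ^ n = z * x ^ n * z := by
  have h : z = z⁻¹ := eq_inv_of_mul_eq_one_left hz
  have h1 := conj_pow (i := n) (a := z) (b := x)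
  rw [← h] at h1
  exact h1

/-- first lemma on involutions -/
theorem Tw.lemA (H : Tw G) {z a d : Rˣ} (hz : z ∈ G) (hz2 : z * z = 1) (ha : Dt G a)
    (hd : Dt G d) (hza : z * a = a * z) (hzd : z * d * z = d⁻¹) : Tt (a : R) d = 0 := by
  have hzi : z⁻¹ = z := (eq_inv_of_mul_eq_one_left hz2).symm
  set s := rt a d with hs
  set t := rt a d⁻¹ with ht
  have e1 : z * (a * d) * z = a * d⁻¹ := by
    rw [← hzd, ← mul_assoc, hza]
    group
  have e2 : z * (d * a) * z = d⁻¹ * a := by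
    rw [← hzd, mul_assoc, mul_assoc, ← hza]
    group
  have e3 : z * s * z = t := by
    rw [hs, ht, rt, rt, ← e1, ← e2, conj_pow' hz2, conj_pow' hz2, mul_inv_rev, mul_inv_rev, hzi]
    have : z * (((a * d) ^ 3)⁻¹ * z) * (z * (d * a) ^ 3 * z) =
      z * ((a * d) ^ 3)⁻¹ * (z * z) * (d * a) ^ 3 * z := by group
    rw [this, hz2]
    group
  have hTn : Tt (a : R) (d⁻¹ : Rˣ) = -Tt (a : R) d := Tt_neg (H.inv_sub hd)
  set T := Tt (a : R) d with hT
  have hT3 := H.T_cube ha hd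
  rw [← hT] at hT3
  have hp : ep (a : R) d = -(T * T + T) := rfl
  have hm : ep (a : R) (d⁻¹ : Rˣ) = -(T * T - T) := by
    rw [ep, hTn]
    noncomm_ring
  have hca : a ∈ Cn T := H.Ta ha (d : R)
  have hcd : d ∈ Cn T := H.Tb hd (a : R)
  have hsC : s ∈ Cn T := rt_mem hca hcd
  have htC : t ∈ Cn T := rt_mem hca (inv_mem hcd)
  have hpm : ep (a : R) d * ep (a : R) (d⁻¹ : Rˣ) = 0 := by
    rw [hp, hm]
    linear_combination (norm := noncomm_ring) T * hT3
  have hmp : ep (a : R) (d⁻¹ : Rˣ) * ep (a : R) d = 0 := by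
    rw [hp, hm]
    linear_combination (norm := noncomm_ring) T * hT3
  have s1 := H.rt_one ha hd
  have t1 := H.rt_one ha hd.inv
  rw [← hs] at s1
  rw [← ht] at t1
  have s2 : (s : R) - 1 = ep (a : R) d * (s - 1) := by
    linear_combination (norm := noncomm_ring) s1
  have t2 : (t : R) - 1 = ep (a : R) (d⁻¹ : Rˣ) * (t - 1) := by
    linear_combination (norm := noncomm_ring) t1
  have s3 : ep (a : R) d * s = s * ep (a : R) d := ep_comm (mem_Cn.1 hsC)
  have t3 : ep (a : R) (d⁻¹ : Rˣ) * t = t * ep (a : R) (d⁻¹ : Rˣ) := by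
    refine ep_comm ?_
    rw [hTn, neg_mul, mul_neg, mem_Cn.1 htC]
  have hst : ((s : R) - 1) * (t - 1) = 0 := by
    rw [t2]
    rw [← mul_assoc, s2]
    have : ep (a : R) d * (s - 1) * ep (a : R) (d⁻¹ : Rˣ) =
        (s - 1) * (ep (a : R) d * ep (a : R) (d⁻¹ : Rˣ)) := by
      rw [mul_sub, s3]
      noncomm_ring
    rw [this, hpm]
    simp
  have hts : ((t : R) - 1) * (s - 1) = 0 := by
    rw [s2]
    rw [← mul_assoc, t2]
    have : ep (a : R) (d⁻¹ : Rˣ) * (t - 1) * ep (a : R) d =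
        (t - 1) * (ep (a : R) (d⁻¹ : Rˣ) * ep (a : R) d) := by
      rw [mul_sub, t3]
      noncomm_ring
    rw [this, hmp]
    simp
  have hcst : s * t = t * s := by
    refine Units.ext ?_
    rw [Units.val_mul, Units.val_mul]
    linear_combination (norm := noncomm_ring) hst - hts
  have hss := H.rt_sq ha hd
  have htt := H.rt_sq ha hd.inv
  rw [← hs] at hss
  rw [← ht] at htt
  have g2 : (z * s) ^ 2 = t * s := by
    rw [← e3, pow_two]
    group
  have hC : Commute t s := hcst.symm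
  have s4 : s ^ 4 = 1 := by
    have : s ^ 4 = (s * s) * (s * s) := by rw [← pow_two, ← pow_two, ← pow_mul]
    rw [this, hss]
    exact H.z_sq ha hd
  have t4 : t ^ 4 = 1 := by
    have : t ^ 4 = (t * t) * (t * t) := by rw [← pow_two, ← pow_two, ← pow_mul]
    rw [this, htt]
    exact H.z_sq ha hd.inv
  have g8 : (z * s) ^ 8 = 1 := by
    have : (z * s) ^ 8 = ((z * s) ^ 2) ^ 4 := by rw [← pow_mul]
    rw [this, g2, hC.mul_pow, t4, s4, one_mul]
  have g4 := H.pow4 (mul_mem hz (rt_mem ha.1 hd.1)) g8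
  have g4' : t * t * (s * s) = 1 := by
    have : (z * s) ^ 4 = ((z * s) ^ 2) ^ 2 := by rw [← pow_mul]
    rw [this, g2, hC.mul_pow, pow_two, pow_two] at g4
    exact g4
  rw [hss, htt] at g4'
  have g5 := congrArg Units.val g4'
  rw [Units.val_mul, H.z_val ha hd, H.z_val ha hd.inv, hp, hm, Units.val_one] at g5
  have hT2 : T * T = 0 := by
    linear_combination (norm := noncomm_ring) g5 - T * hT3 + H.t3 * (T * T)
  have : T ^ 3 = 0 := by
    rw [pow_succ, pow_two, hT2, zero_mul]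
  rw [← hT3, this]

/-- second lemma on involutions -/
theorem Tw.lemB (H : Tw G) {a b d : Rˣ} (ha : Dt G a) (hb : Dt G b) (hd : Dt G d)
    (h : (a * b) ^ 6 * d * (a * b) ^ 6 = d⁻¹) : d = 1 := by
  have hz := H.z_mem ha hb
  have hz2 := H.z_sq ha hb
  have hza := H.z_comm ha hb (x := a) (H.Ta ha (b : R))
  have hzb := H.z_comm ha hb (x := b) (H.Tb hb (a : R))
  have h1 := H.lemA hz hz2 ha hd hza h
  have h2 := H.lemA hz hz2 hb hd hzb h
  have h3 : d ∈ Cn (Tt (a : R) b) := by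
    rw [mem_Cn]
    rw [Tt] at h1 h2 ⊢
    linear_combination (norm := noncomm_ring)
      ((a : R) - 1) * h2 - h1 * ((b : R) - 1) + ((b : R) - 1) * h1 - h2 * ((a : R) - 1)
  have h4 := H.z_comm ha hb h3
  rw [h4, mul_assoc, hz2, mul_one] at h
  have h5 : d ^ 2 = 1 := by
    rw [pow_two]
    nth_rw 2 [h]
    exact mul_inv_cancel d
  have h6 := hd.2
  rw [pow_succ, h5, one_mul] at h6
  exact h6

end

end Pool.Agent.Helper140_T12
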