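import Pool.Agent.Helper140_T12.Lm

/-!
# The elements `(a b) ^ 6` commute with the elements of order three
-/

set_option autoImplicit false

namespace Pool.Agent.Helper140_T12

universe u

section
variable {R : Type u} [Ring R] {G : Subgroup Rˣ}

/-- the final ring computation -/
theorem ring_fin (h3 : (1 : R) + 1 + 1 = 0) {E P Q q u q' : R} (hE : E * E = E) (hP : P * P = P)
    (EP : E * P = P * E) (Eu : E * u = u * E)
    (PQ : P * Q = Q * P) (uP : u * P = Q * u) (uQ : u * Q = P * u) (uu : u * u = 1 + E)
    (u1 : (1 - E) * u = 1 - E) (f1q : E * P * q = q * ((1 - E) * P))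
    (f2q : (1 - E) * P * q = q * (E * P)) (qqP : q * q * P = -P) (Pq : P * q = q * P)
    (q1 : (1 - P) * q = 1 - P) (law : (u * q) ^ 8 + (u * q) ^ 4 + 1 = 0) (hq : q' * q = 1) :
    P = 0 := by
  have EE : E * (1 - E) = 0 := by rw [mul_sub, mul_one, hE, sub_self]
  have u1' : u * (1 - E) = 1 - E := by
    rw [mul_sub, mul_one, ← Eu]
    linear_combination (norm := noncomm_ring) u1
  have q1' : q * (1 - P) = 1 - P := by
    rw [mul_sub, mul_one, ← Pq]
    linear_combination (norm := noncomm_ring) q1
  set g := u * q with hg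
  -- first step
  have h0 : E * P * Q = 0 := by
    set h := E * P * Q with hh
    have a1 : q * h = (1 - E) * (P * q * Q) := by
      rw [hh, ← mul_assoc, ← f2q]
      noncomm_ring
    have a2 : g * h = q * h := by
      rw [hg, mul_assoc, a1, ← mul_assoc, u1']
    have a3 : q * (q * h) = -h := by
      have : q * (q * h) = (q * q * P) * (E * Q) := by
        rw [hh, EP]
        noncomm_ring
      rw [this, qqP, hh, EP]
      noncomm_ring
    have a4 : g * (g * h) = -(u * h) := by
      rw [a2, hg, mul_assoc, a3]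
      noncomm_ring
    have a5 : u * h = h * u := by
      rw [hh]
      linear_combination (norm := noncomm_ring)
        -(Eu * P * Q) + E * uP * Q + E * Q * uQ - E * PQ * u
    have a6 : E * h = h := by
      rw [hh]
      linear_combination (norm := noncomm_ring) hE * P * Q
    have a7 : u * (u * h) = -h := by
      linear_combination (norm := noncomm_ring) uu * h + a6 + h3 * h
    have a8 : g * (g * (g * (g * h))) = -h := by
      have e0 : g * (g * (g * (g * h))) = -(g * (g * (u * h))) := by
        rw [a4]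
        noncomm_ring
      have e1 : g * (g * (h * u)) = g * (g * h) * u := by
        noncomm_ring
      rw [e0, a5, e1, a4, neg_mul, neg_neg, mul_assoc, ← a5, a7]
    have a9 : (g ^ 8 + g ^ 4 + 1) * h = h := by
      have e1 : g ^ 4 * h = -h := by
        rw [← a8]
        noncomm_ring
      have e3 : g ^ 8 = g ^ 4 * g ^ 4 := by rw [← pow_add]
      have e2 : g ^ 8 * h = g ^ 4 * (g ^ 4 * h) := by
        rw [e3, mul_assoc (g ^ 4) (g ^ 4) h]
      rw [add_mul, add_mul, e2, e1, mul_neg, e1, one_mul]
      abel
    rw [law, zero_mul] at a9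
    exact a9.symm
  -- second step
  have uf : u * (E * P) = E * Q * u := by
    linear_combination (norm := noncomm_ring) -(Eu * P) + E * uP
  have Puf : P * (u * (E * P)) = 0 := by
    rw [uf]
    linear_combination (norm := noncomm_ring) h0 * u - EP * Q * u
  have fuf : E * P * (u * (E * P)) = 0 := by
    rw [mul_assoc, Puf, mul_zero]
  have ff : E * P * (E * P) = E * P := by
    linear_combination (norm := noncomm_ring) hE * P * P + E * hP - E * EP * P
  have f1E : E * P * (1 - E) = 0 := by
    linear_combination (norm := noncomm_ring) E * EP - hE * P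
  set f := E * P with hf
  have b1 : q * f = (1 - E) * (P * q) := by
    rw [← f2q]
    noncomm_ring
  have b2 : g * f = q * f := by
    rw [hg, mul_assoc, b1, ← mul_assoc, u1']
  have b3 : q * (q * f) = -f := by
    have : q * (q * f) = (q * q * P) * E := by
      rw [EP]
      noncomm_ring
    rw [this, qqP, EP]
    noncomm_ring
  have b4 : g * (g * f) = -(u * f) := by
    rw [b2, hg, mul_assoc, b3]
    noncomm_ring
  have b5 : q * (u * f) = u * f := by
    have : u * f = (1 - P) * (u * f) := by
      rw [sub_mul, one_mul, Puf, sub_zero]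
    rw [this, ← mul_assoc, q1']
  have b6 : E * f = f := by
    rw [hf, ← mul_assoc, hE]
  have b7 : g * (g * (g * f)) = f := by
    rw [b4, hg, mul_neg, mul_assoc, b5, ← mul_assoc, uu]
    linear_combination (norm := noncomm_ring) -b6 - h3 * f
  have b8 : -(u * f) + q * f + f = 0 := by
    have e1 : g ^ 4 * f = q * f := by
      have : g ^ 4 * f = g * (g * (g * (g * f))) := by noncomm_ring
      rw [this, b7, b2]
    have e2 : g ^ 8 * f = -(u * f) := by
      have : g ^ 8 * f = g * (g * (g * (g * (g * (g * (g * (g * f))))))) := by noncomm_ring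
      rw [this, b7, b7, b4]
    have e3 := congrArg (· * f) law
    simp only [zero_mul] at e3
    rw [add_mul, add_mul, e1, e2, one_mul] at e3
    exact e3
  have fqf : f * (q * f) = 0 := by
    rw [b1, ← mul_assoc f, f1E, zero_mul]
  have hf0 : f = 0 := by
    have := congrArg (f * ·) b8
    simp only [mul_zero] at this
    rw [mul_add, mul_add, mul_neg, fuf, fqf, ff] at this
    simpa using this
  have hf2 : (1 - E) * P = 0 := by
    have h := f1q
    rw [hf0, zero_mul] at h
    have : q' * (q * ((1 - E) * P)) = 0 := by rw [← h, mul_zero]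
    rwa [← mul_assoc, hq, one_mul] at this
  have : P = E * P + (1 - E) * P := by noncomm_ring
  rw [this, hf2, ← hf, hf0, add_zero]

/-- the trace law for `c⁻¹ z`, `z` an involution -/
theorem Tw.inv_T (H : Tw G) {z c c' : Rˣ} (hz : z ∈ G) (hz2 : z * z = 1) (hc : Dt G c)
    (hc' : c' = z * c * z) : Tt (c : R) c' * Tt (c : R) c' = -Tt (c : R) c' := by
  have hzi : z⁻¹ = z := (eq_inv_of_mul_eq_one_left hz2).symm
  have hcD : Dt G c' := by
    have := hc.conj hz
    rw [hzi] at this
    rw [hc']
    exact this
  have hl := H.law (c * z) (mul_mem hc.1 hz)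
  have e2 : (c * z) ^ 2 = c * c' := by
    rw [hc', pow_two]
    group
  have e4 : ((c * z : Rˣ) : R) ^ 4 = ((c * c' : Rˣ) : R) ^ 2 := by
    rw [← e2, ← Units.val_pow_eq_pow_val, ← Units.val_pow_eq_pow_val, ← pow_mul]
  have e8 : ((c * z : Rˣ) : R) ^ 8 = ((c * c' : Rˣ) : R) ^ 4 := by
    rw [← e2, ← Units.val_pow_eq_pow_val, ← Units.val_pow_eq_pow_val, ← pow_mul]
  rw [e4, e8] at hl
  have ht := H.tr hc hcD
  obtain ⟨K, _, φ, X, Y, hφ, hX, hY⟩ := comm_model2 (x := ((c * c' : Rˣ) : R))
    (y := (((c * c')⁻¹ : Rˣ) : R)) (by rw [Units.mul_inv, Units.inv_mul])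
  have h3' : (1 : K) + 1 + 1 = 0 := hφ (by simpa using H.t3)
  have h1 : X * Y = 1 := hφ (by rw [map_mul, hX, hY, Units.mul_inv, map_one])
  have hl' : X ^ 4 + X ^ 2 + 1 = 0 := hφ (by
    rw [map_add, map_add, map_pow, map_pow, map_one, map_zero, hX]
    exact hl)
  have hT : Tt (c : R) c' = φ (X + Y + 1) := by
    rw [map_add, map_add, map_one, hX, hY, ht]
    noncomm_ring
  rw [hT, ← map_mul, ← map_neg]
  refine congrArg φ ?_
  linear_combination Y ^ 2 * hl' - (X ^ 2 * (X * Y + 1) + X * Y + 1 - 2) * h1 + (X + Y + 1) * h3'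

/-- The elements `(a b) ^ 6` commute with the elements of order three. -/
theorem Tw.main (H : Tw G) {a b c : Rˣ} (ha : Dt G a) (hb : Dt G b) (hc : Dt G c) :
    (a * b) ^ 6 * c = c * (a * b) ^ 6 := by
  set z := (a * b) ^ 6 with hz
  have hzG : z ∈ G := H.z_mem ha hb
  have hz2 : z * z = 1 := H.z_sq ha hb
  have hzi : z⁻¹ = z := (eq_inv_of_mul_eq_one_left hz2).symm
  set c' := z * c * z with hc'
  have hcD : Dt G c' := by
    have := hc.conj hzG
    rw [hzi] at this
    exact this
  set q := c⁻¹ * c' with hq
  have hqG : q ∈ G := mul_mem (inv_mem hc.1) hcD.1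
  have zqz : z * q * z = q⁻¹ := by
    rw [hq, hc', mul_inv_rev, mul_inv_rev, mul_inv_rev, inv_inv, hzi]
    have : z * (c⁻¹ * (z * c * z)) * z = z * c⁻¹ * z * c * (z * z) := by group
    rw [this, hz2]
    group
  have q4 : q ^ 4 = 1 := by
    refine H.lemB ha hb ⟨pow_mem hqG 4, ?_⟩ ?_
    · rw [← pow_mul]
      exact H.pow12 hqG
    · rw [← hz, ← conj_pow' hz2, zqz, inv_pow]
  have hq6 : q ^ 6 = q * q := by
    have : q ^ 6 = q ^ 4 * (q * q) := by rw [← pow_two, ← pow_add]
    rw [this, q4, one_mul]
  have hTT := H.inv_T hzG hz2 hc.inv (c' := c'⁻¹) (by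
    rw [hc', mul_inv_rev, mul_inv_rev, hzi, mul_assoc])
  have hTn : Tt ((c⁻¹ : Rˣ) : R) (c'⁻¹ : Rˣ) = -Tt ((c⁻¹ : Rˣ) : R) c' := Tt_neg (H.inv_sub hcD)
  rw [hTn] at hTT
  set P := Tt ((c⁻¹ : Rˣ) : R) c' with hP
  have hPP : P * P = P := by
    linear_combination (norm := noncomm_ring) hTT
  have hz'v := H.z_val hc.inv hcD
  rw [← hq, hq6, ep, ← hP, hPP] at hz'v
  have hqq : ((q * q : Rˣ) : R) = 1 + P := by
    linear_combination (norm := noncomm_ring) hz'v - H.t3 * P
  have htr := H.tr hc.inv hcD
  rw [← hq, ← hP] at htr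
  set y := q * q with hy
  clear_value y q
  have hyG : y ∈ G := by
    rw [hy]
    exact mul_mem hqG hqG
  have hy2 : y * y = 1 := by
    rw [← q4, hy, ← pow_two, ← pow_two, ← pow_mul]
  have hyi : y⁻¹ = y := (eq_inv_of_mul_eq_one_left hy2).symm
  have hqi : q⁻¹ = y * q := by
    rw [inv_eq_iff_mul_eq_one]
    have : q * (y * q) = q ^ 4 := by
      rw [hy, ← mul_assoc, ← mul_assoc, ← pow_two, ← pow_succ, ← pow_succ]
    rw [this, q4]
  have q1 : (1 - P) * (q : R) = 1 - P := by
    rw [hqi, Units.val_mul, hqq] at htr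
    linear_combination (norm := noncomm_ring) -htr + H.t3 * q
  have zy : z * y = y * z := by
    have h1 : z * y * z = y := by
      rw [hy, ← pow_two, ← conj_pow' hz2, zqz, inv_pow, pow_two, ← hy]
      exact hyi
    nth_rw 2 [← h1]
    rw [mul_assoc, hz2, mul_one]
  set u := rt a b with hu
  have huG : u ∈ G := rt_mem ha.1 hb.1
  have huu : u * u = z := H.rt_sq ha hb
  have hzu : z * u = u * z := by rw [← huu, mul_assoc]
  have hu1 := H.rt_one ha hb
  rw [← hu] at hu1
  have hzv := H.z_val ha hb
  rw [← hz] at hzv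
  set E := ep (a : R) b with hE
  obtain ⟨-, -, hEE, -⟩ := H.es ha hb
  rw [← hE] at hEE
  clear_value z u
  set v := u * y * u⁻¹ with hv
  clear_value v
  have hvG : v ∈ G := by
    rw [hv]
    exact mul_mem (mul_mem huG hyG) (inv_mem huG)
  have hv2 : v * v = 1 := by
    have : v * v = u * (y * y) * u⁻¹ := by
      rw [hv]
      group
    rw [this, hy2]
    group
  have hvi : v⁻¹ = v := (eq_inv_of_mul_eq_one_left hv2).symm
  have hzv' : z * v = v * z := by
    have e1 : Commute z u := hzu
    have e2 : Commute z y := zy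
    rw [hv]
    exact (e1.mul_right e2).mul_right e1.inv_right
  have w4 : (y * v) ^ 4 = 1 := by
    refine H.lemB hc.inv hcD ⟨pow_mem (mul_mem hyG hvG) 4, ?_⟩ ?_
    · rw [← pow_mul]
      exact H.pow12 (mul_mem hyG hvG)
    · rw [← hq, hq6, ← conj_pow' hy2, ← inv_pow]
      congr 1
      rw [mul_inv_rev, hvi, hyi, ← mul_assoc y y v, hy2, one_mul]
  have g2 : (y * u) ^ 2 = y * v * z := by
    rw [hv, ← huu, pow_two]
    group
  have hcw : Commute (y * v) z := by
    have e1 : Commute z v := hzv'
    have e2 : Commute z y := zy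
    exact (e2.mul_right e1).symm
  have g8 : (y * u) ^ 8 = 1 := by
    have : (y * u) ^ 8 = ((y * u) ^ 2) ^ 4 := by rw [← pow_mul]
    rw [this, g2, hcw.mul_pow, w4, one_mul]
    have : z ^ 4 = (z * z) * (z * z) := by rw [← pow_two, ← pow_two, ← pow_mul]
    rw [this, hz2, one_mul]
  have g4 := H.pow4 (mul_mem hyG huG) g8
  have w2 : y * v * (y * v) = 1 := by
    have : (y * u) ^ 4 = ((y * u) ^ 2) ^ 2 := by rw [← pow_mul]
    rw [this, g2, hcw.mul_pow, pow_two, pow_two z, hz2, mul_one] at g4
    exact g4
  have yv : y * v = v * y := by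
    have : y * v = (y * v)⁻¹ := eq_inv_of_mul_eq_one_left w2
    rw [this, mul_inv_rev, hvi, hyi]
  have hyR : (y : R) = 1 + P := hqq
  set Q := (v : R) - 1 with hQ
  have hvR : (v : R) = 1 + Q := by
    rw [hQ]
    abel
  have EP : E * P = P * E := by
    have := congrArg Units.val zy
    rw [Units.val_mul, Units.val_mul, hzv, hyR] at this
    linear_combination (norm := noncomm_ring) this
  have Eu : E * u = u * E := by
    have := congrArg Units.val hzu
    rw [Units.val_mul, Units.val_mul, hzv] at this
    linear_combination (norm := noncomm_ring) this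
  have PQ : P * Q = Q * P := by
    have := congrArg Units.val yv
    rw [Units.val_mul, Units.val_mul, hvR, hyR] at this
    linear_combination (norm := noncomm_ring) this
  have uP : (u : R) * P = Q * u := by
    have e1 : u * y = v * u := by
      rw [hv]
      group
    have := congrArg Units.val e1
    rw [Units.val_mul, Units.val_mul, hvR, hyR] at this
    linear_combination (norm := noncomm_ring) this
  have uQ : (u : R) * Q = P * u := by
    have e1 : u * v = y * u := by
      have : u * v = (u * u) * y * u⁻¹ := by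
        rw [hv]
        group
      rw [this, huu, zy, mul_assoc, ← huu]
      group
    have := congrArg Units.val e1
    rw [Units.val_mul, Units.val_mul, hvR, hyR] at this
    linear_combination (norm := noncomm_ring) this
  have uu : (u : R) * u = 1 + E := by
    rw [← Units.val_mul, huu, hzv]
  have Pq : P * (q : R) = q * P := by
    have e1 : y * q = q * y := by
      rw [hy]
      group
    have := congrArg Units.val e1
    rw [Units.val_mul, Units.val_mul, hyR] at this
    linear_combination (norm := noncomm_ring) this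
  have qqP : (q : R) * q * P = -P := by
    rw [← Units.val_mul, ← hy, hyR]
    linear_combination (norm := noncomm_ring) hPP + H.t3 * P
  have zq : (1 + E) * (q : R) = (1 + P) * q * (1 + E) := by
    have e1 : z * q = y * q * z := by
      rw [← hqi, ← zqz, mul_assoc (z * q), hz2, mul_one]
    have := congrArg Units.val e1
    rw [Units.val_mul, Units.val_mul, Units.val_mul, hzv, hyR] at this
    exact this
  have f1q : E * P * (q : R) = q * ((1 - E) * P) := by
    linear_combination (norm := noncomm_ring) P * zq + EP * (q : R) + Pq + hPP * (q : R) +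
      hPP * (q : R) * E - (q : R) * EP - (q : R) * EP + Pq * E + Pq * E + H.t3 * ((q : R) * E * P)
  have f2q : (1 - E) * P * (q : R) = q * (E * P) := by
    linear_combination (norm := noncomm_ring) -f1q + Pq
  have hP0 : P = 0 := ring_fin H.t3 hEE hPP EP Eu PQ uP uQ uu hu1 f1q f2q qqP Pq q1 (by
    rw [← Units.val_mul]
    exact H.law _ (mul_mem huG hqG)) (q.inv_mul)
  have hq1 : q = 1 := by
    refine Units.ext ?_
    rw [hP0, sub_zero, one_mul] at q1
    rw [q1, Units.val_one]
  rw [hq, inv_mul_eq_one] at hq1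
  rw [hc'] at hq1
  nth_rw 1 [hq1]
  rw [← mul_assoc, ← mul_assoc, hz2, one_mul]

end

end Pool.Agent.Helper140_T12
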