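import Pool.Agent.Helper140_T12.Rg

/-!
# Pairs of elements of order three
-/

set_option autoImplicit false

namespace Pool.Agent.Helper140_T12

universe u

section
variable {R : Type u} [Ring R] {G : Subgroup Rˣ}

theorem Tt_left {a b : R} (ha : (a - 1) * (a - 1) = 0) : Tt a b * a = a * Tt a b := by
  rw [Tt]
  linear_combination (norm := noncomm_ring) (b - 1) * ha - ha * (b - 1)

theorem Tt_right {a b : R} (hb : (b - 1) * (b - 1) = 0) : Tt a b * b = b * Tt a b := by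
  rw [Tt_comm]
  exact Tt_left hb

theorem ep_comm {a b x : R} (h : Tt a b * x = x * Tt a b) : ep a b * x = x * ep a b := by
  have h1 : Commute (Tt a b) x := h
  have h2 : Commute (ep a b) x := ((h1.mul_left h1).add_left h1).neg_left
  exact h2

theorem Tt_neg {a b c : R} (h : b - 1 = -(c - 1)) : Tt a b = -Tt a c := by
  rw [Tt, Tt, h]
  noncomm_ring

/-- the trace -/
theorem Tw.tr (H : Tw G) {a b : Rˣ} (ha : Dt G a) (hb : Dt G b) :
    ((a * b : Rˣ) : R) + ((a * b)⁻¹ : Rˣ) = Tt (a : R) b - 1 := by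
  rw [mul_inv_rev, Units.val_mul, Units.val_mul, H.inv_val ha, H.inv_val hb, Tt]
  linear_combination (norm := noncomm_ring) H.t3

theorem Tw.tr' (H : Tw G) {a b : Rˣ} (ha : Dt G a) (hb : Dt G b) :
    ((b * a : Rˣ) : R) + ((b * a)⁻¹ : Rˣ) = Tt (a : R) b - 1 := by
  rw [H.tr hb ha, Tt_comm]

theorem Tw.inv_sub (H : Tw G) {a : Rˣ} (ha : Dt G a) :
    ((a⁻¹ : Rˣ) : R) - 1 = -((a : R) - 1) := by
  rw [H.inv_val ha]
  noncomm_ring

theorem Tw.T_law (H : Tw G) {a b : Rˣ} (ha : Dt G a) (hb : Dt G b) :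
    (Tt (a : R) b - 1) ^ 4 = (Tt (a : R) b - 1) ^ 2 := by
  have h := tr_law H.t3 (a * b) (H.law _ (mul_mem ha.1 hb.1))
  rw [H.tr ha hb] at h
  have e4 : (Tt (a : R) b - 1) ^ 4 = (Tt (a : R) b - 1) * (Tt (a : R) b - 1) *
      ((Tt (a : R) b - 1) * (Tt (a : R) b - 1)) := by
    change _ ^ (2 + 2) = _
    rw [pow_add, pow_two]
  rw [e4, pow_two, h]

theorem Tw.T_cube (H : Tw G) {a b : Rˣ} (ha : Dt G a) (hb : Dt G b) :
    Tt (a : R) b ^ 3 = Tt (a : R) b := by
  have h1 := H.T_law ha hb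
  have h2 := H.T_law ha hb.inv
  rw [Tt_neg (H.inv_sub hb)] at h2
  obtain ⟨K, _, φ, X, Y, hφ, hX, hY⟩ := comm_model2 (x := Tt (a : R) b) (y := Tt (a : R) b) rfl
  rw [← hX] at h1 h2 ⊢
  have h3' : (1 : K) + 1 + 1 = 0 := hφ (by simpa using H.t3)
  have h1' : (X - 1) ^ 4 = (X - 1) ^ 2 := hφ (by simpa using h1)
  have h2' : (-X - 1) ^ 4 = (-X - 1) ^ 2 := hφ (by simpa using h2)
  have : X ^ 3 = X := by
    linear_combination h1' - h2' + (3 * X ^ 3 + X) * h3'
  rw [← map_pow, this]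

/-- `(a b) ^ 6` -/
theorem Tw.z_val (H : Tw G) {a b : Rˣ} (ha : Dt G a) (hb : Dt G b) :
    (((a * b) ^ 6 : Rˣ) : R) = 1 + ep (a : R) b := by
  have hT := H.T_cube ha hb
  have hs := H.tr ha hb
  obtain ⟨K, _, φ, X, Y, hφ, hX, hY⟩ := comm_model2 (x := ((a * b : Rˣ) : R))
    (y := (((a * b)⁻¹ : Rˣ) : R)) (by rw [Units.mul_inv, Units.inv_mul])
  have h3' : (1 : K) + 1 + 1 = 0 := hφ (by simpa using H.t3)
  have h1 : X * Y = 1 := hφ (by rw [map_mul, hX, hY, Units.mul_inv, map_one])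
  have hT' : Tt (a : R) b = φ (X + Y + 1) := by
    rw [map_add, map_add, map_one, hX, hY, hs]
    noncomm_ring
  rw [hT', ← map_pow] at hT
  have hT2 := hφ hT
  rw [ep, hT', Units.val_pow_eq_pow_val, ← hX, ← map_pow, ← map_one φ, ← map_mul, ← map_add,
    ← map_neg, ← map_add]
  refine congrArg φ ?_
  set T := X + Y + 1 with hTdef
  have h : X ^ 2 - (T - 1) * X + 1 = 0 := by
    rw [hTdef]
    linear_combination -h1
  have h3c : X ^ 3 + (-(T ^ 2 + T)) * X + (T - 1) = 0 := by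
    linear_combination (X + (T - 1)) * h - T * X * h3'
  clear_value T
  linear_combination (X ^ 3 - (-(T ^ 2 + T)) * X - (T - 1)) * h3c +
    (T ^ 2 + T) ^ 2 * h - (-(T ^ 2 + T) + 2) * X * (hT2) - (T + 2) * hT2 - T * h3'

/-- the element `(a b)⁻³ (b a)³` -/
def rt (a b : Rˣ) : Rˣ := ((a * b) ^ 3)⁻¹ * (b * a) ^ 3

theorem Tw.x3 (H : Tw G) {a b : Rˣ} {x y : Rˣ} (hxy : x * y = 1)
    (hs : (x : R) + y = Tt (a : R) b - 1) (hc : Tt (a : R) b * x = x * Tt (a : R) b) :
    (x : R) ^ 3 = -(ep (a : R) b * x) - (Tt (a : R) b - 1) := by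
  obtain ⟨K, _, φ, X, T, hφ, hX, hT⟩ := comm_model2 hc.symm
  have h3' : (1 : K) + 1 + 1 = 0 := hφ (by simpa using H.t3)
  have h : X ^ 2 - (T - 1) * X + 1 = 0 := hφ (by
    rw [map_add, map_sub, map_mul, map_sub, map_pow, map_one, map_zero, hX, hT, ← hs, add_mul,
      ← Units.val_mul y x, mul_eq_one_iff_eq_inv.1 hxy, mul_inv_cancel]
    have e : y * x = 1 := by rw [mul_eq_one_iff_eq_inv.1 hxy, mul_inv_cancel]
    rw [Units.val_one]
    noncomm_ring)
  have h3c : X ^ 3 + (-(T ^ 2 + T)) * X + (T - 1) = 0 := by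
    linear_combination (X + (T - 1)) * h - T * X * h3'
  have h4 : X ^ 3 = -(-(T * T + T) * X) - (T - 1) := by
    linear_combination h3c
  rw [ep, ← hX, ← hT, ← map_pow, h4]
  simp only [map_neg, map_sub, map_mul, map_add, map_one]

theorem Tw.Ta (H : Tw G) {a : Rˣ} (ha : Dt G a) (b : R) : Commute (Tt (a : R) b) a :=
  Tt_left (H.sq ha)

theorem Tw.Tb (H : Tw G) {b : Rˣ} (hb : Dt G b) (a : R) : Commute (Tt a b) b :=
  Tt_right (H.sq hb)

theorem Commute.ep {a b x : R} (h : Commute (Tt a b) x) : Commute (ep a b) x := ep_comm h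

theorem Tw.es (H : Tw G) {a b : Rˣ} (ha : Dt G a) (hb : Dt G b) :
    ep (a : R) b * (Tt (a : R) b - 1) = 0 ∧
    (Tt (a : R) b - 1) * (Tt (a : R) b - 1) = 1 - ep (a : R) b ∧
    ep (a : R) b * ep (a : R) b = ep (a : R) b ∧ ep (a : R) b * Tt (a : R) b = ep (a : R) b := by
  have hT := H.T_cube ha hb
  have h3 := H.t3
  set T := Tt (a : R) b with hTdef
  have hep : ep (a : R) b = -(T * T + T) := rfl
  have h1 : ep (a : R) b * T = ep (a : R) b := by
    rw [hep]
    linear_combination (norm := noncomm_ring) -hT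
  have h2 : ep (a : R) b * (T - 1) = 0 := by
    rw [mul_sub, h1, mul_one, sub_self]
  refine ⟨h2, ?_, ?_, h1⟩
  · rw [hep]
    linear_combination (norm := noncomm_ring) -(h3 * T)
  · have h4 : ep (a : R) b * ep (a : R) b = -(ep (a : R) b * T * T + ep (a : R) b * T) := by
      rw [hep]
      noncomm_ring
    rw [h4, h1, h1]
    linear_combination (norm := noncomm_ring) -(h3 * ep (a : R) b)

theorem w_tr {A B : R} (hA : A * A = 0) (hB : B * B = 0) :
    (1 - B) * (1 - A) * ((1 + B) * (1 + A)) + (1 - A) * (1 - B) * ((1 + A) * (1 + B)) =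
      (A * B + B * A) * (A * B + B * A) + (1 + 1) := by
  have hA' : ∀ x, A * (A * x) = 0 := fun x => by rw [← mul_assoc, hA, zero_mul]
  have hB' : ∀ x, B * (B * x) = 0 := fun x => by rw [← mul_assoc, hB, zero_mul]
  simp only [mul_add, add_mul, mul_sub, sub_mul, mul_one, one_mul, mul_assoc, hA, hA', hB, hB',
    mul_zero]
  abel

theorem Tw.rt_val (H : Tw G) {a b : Rˣ} (ha : Dt G a) (hb : Dt G b) :
    ((rt a b : Rˣ) : R) = ep (a : R) b * (((a * b)⁻¹ * (b * a) : Rˣ) : R) + (1 - ep (a : R) b) := by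
  obtain ⟨h1, h2, h3, h4⟩ := H.es ha hb
  have ca := H.Ta ha (b : R)
  have cb := H.Tb hb (a : R)
  have c1 : Commute (Tt (a : R) b) ((a * b : Rˣ) : R) := ca.mul_right cb
  have c2 : Commute (Tt (a : R) b) ((b * a : Rˣ) : R) := cb.mul_right ca
  have c3 : Commute (Tt (a : R) b) (((a * b)⁻¹ : Rˣ) : R) := Commute.units_inv_right c1
  have e1 := H.x3 (x := (a * b)⁻¹) (y := a * b) (a := a) (b := b) (inv_mul_cancel _)
    (by rw [add_comm]; exact H.tr ha hb) c3
  have e2 := H.x3 (x := b * a) (y := (b * a)⁻¹) (a := a) (b := b) (mul_inv_cancel _)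
    (H.tr' ha hb) c2
  have e3 : ((rt a b : Rˣ) : R) = (((a * b)⁻¹ : Rˣ) : R) ^ 3 * ((b * a : Rˣ) : R) ^ 3 := by
    rw [rt, ← inv_pow, Units.val_mul, Units.val_pow_eq_pow_val, Units.val_pow_eq_pow_val]
  rw [e3, e1, e2, Units.val_mul ((a * b)⁻¹)]
  have c4 := (Commute.ep c3)
  set e := ep (a : R) b with he
  set y := (((a * b)⁻¹ : Rˣ) : R)
  set x := ((b * a : Rˣ) : R)
  set s := Tt (a : R) b - 1 with hs
  have c5 : Commute e s := Commute.ep ((Commute.refl _).sub_right (Commute.one_right _))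
  have c6 : Commute s y := c3.sub_left (Commute.one_left _)
  have c4' : e * y = y * e := c4
  have c5' : e * s = s * e := c5
  have c6' : s * y = y * s := c6
  have r1 : e * y * (e * x) = e * (y * x) := by
    rw [c4', mul_assoc, ← mul_assoc e e x, h3, ← mul_assoc, ← c4', mul_assoc]
  have r2 : e * y * s = 0 := by
    rw [mul_assoc, ← c6', ← mul_assoc, h1, zero_mul]
  have r3 : s * (e * x) = 0 := by
    rw [← mul_assoc, ← c5', h1, zero_mul]
  linear_combination (norm := noncomm_ring) r1 + r2 + r3 + h2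

theorem rt_ring (h3 : (1 : R) + 1 + 1 = 0) {T w : R} (hc : Commute T w)
    (h1 : w * w + 1 = (T * T + (1 + 1)) * w) (he : -(T * T + T) * -(T * T + T) = -(T * T + T))
    (heT : -(T * T + T) * T = -(T * T + T)) :
    (-(T * T + T) * w + (1 - -(T * T + T))) * (-(T * T + T) * w + (1 - -(T * T + T))) =
      1 + -(T * T + T) := by
  obtain ⟨K, _, φ, T, W, hφ, hT, hW⟩ := comm_model2 hc
  subst hT
  subst hW
  have h3' : (1 : K) + 1 + 1 = 0 := hφ (by simpa using h3)
  have k1 : W * W + 1 = (T * T + (1 + 1)) * W := hφ (by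
    simp only [map_add, map_mul, map_one]; exact h1)
  have k3 : -(T * T + T) * -(T * T + T) = -(T * T + T) := hφ (by
    simp only [map_add, map_mul, map_neg]; exact he)
  have k4 : -(T * T + T) * T = -(T * T + T) := hφ (by
    simp only [map_add, map_mul, map_neg]; exact heT)
  have : (-(T * T + T) * W + (1 - -(T * T + T))) * (-(T * T + T) * W + (1 - -(T * T + T))) =
      1 + -(T * T + T) := by
    set e := -(T * T + T)
    linear_combination e ^ 2 * k1 + W * (e * (k4 * (T + 1)) + k3) + e * W * h3' - e * h3'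
  have := congrArg φ this
  simpa only [map_add, map_mul, map_neg, map_sub, map_one] using this

theorem Tw.rt_sq (H : Tw G) {a b : Rˣ} (ha : Dt G a) (hb : Dt G b) :
    rt a b * rt a b = (a * b) ^ 6 := by
  refine Units.ext ?_
  rw [Units.val_mul, H.z_val ha hb, H.rt_val ha hb]
  have ca := H.Ta ha (b : R)
  have cb := H.Tb hb (a : R)
  have c1 : Commute (Tt (a : R) b) ((a * b : Rˣ) : R) := ca.mul_right cb
  have c2 : Commute (Tt (a : R) b) ((b * a : Rˣ) : R) := cb.mul_right ca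
  have c3 : Commute (Tt (a : R) b) (((a * b)⁻¹ : Rˣ) : R) := Commute.units_inv_right c1
  have c4 : Commute (Tt (a : R) b) (((a * b)⁻¹ * (b * a) : Rˣ) : R) := c3.mul_right c2
  have hw : (((a * b)⁻¹ * (b * a) : Rˣ) : R) + (((b * a)⁻¹ * (a * b) : Rˣ) : R) =
      Tt (a : R) b * Tt (a : R) b + (1 + 1) := by
    have := w_tr (H.sq ha) (H.sq hb)
    rw [← Tt] at this
    rw [← this]
    simp only [mul_inv_rev, Units.val_mul]
    rw [H.inv_val ha, H.inv_val hb, add_sub_cancel, add_sub_cancel]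
  have hw2 : (((a * b)⁻¹ * (b * a) : Rˣ) : R) * (((a * b)⁻¹ * (b * a) : Rˣ) : R) + 1 =
      (Tt (a : R) b * Tt (a : R) b + (1 + 1)) * (((a * b)⁻¹ * (b * a) : Rˣ) : R) := by
    rw [← hw, add_mul, ← Units.val_mul ((b * a)⁻¹ * (a * b))]
    have : (b * a)⁻¹ * (a * b) * ((a * b)⁻¹ * (b * a)) = 1 := by group
    rw [this, Units.val_one]
  obtain ⟨h1, h2, h3, h4⟩ := H.es ha hb
  exact rt_ring H.t3 c4 hw2 h3 h4

end

end Pool.Agent.Helper140_T12
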