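import Mathlib

/-!
# Groups of units with `g ^ 8 + g ^ 4 + 1 = 0` in characteristic three
-/

set_option autoImplicit false

namespace Pool.Agent.Helper140_T12

universe u

section
variable {R : Type u} [Ring R]

/-- groups of units with `(g ^ 4 - 1) ^ 2 = 0` in characteristic `3` -/
structure Tw (G : Subgroup Rˣ) : Prop where
  three : (3 : R) = 0
  law : ∀ g ∈ G, (g : R) ^ 8 + (g : R) ^ 4 + 1 = 0

-- commuting elements live in a commutative ring
open scoped IsMulCommutative in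
theorem comm_model (s : Set R) (hs : ∀ a ∈ s, ∀ b ∈ s, a * b = b * a) :
    ∃ (K : Type u) (_ : CommRing K) (φ : K →+* R), Function.Injective φ ∧
      ∀ a ∈ s, ∃ k, φ k = a := by
  have := Subring.isMulCommutative_closure hs
  exact ⟨Subring.closure s, inferInstance, (Subring.closure s).subtype, Subtype.val_injective,
    fun a ha => ⟨⟨a, Subring.subset_closure ha⟩, rfl⟩⟩

theorem comm_model2 {x y : R} (h : x * y = y * x) :
    ∃ (K : Type u) (_ : CommRing K) (φ : K →+* R) (X Y : K), Function.Injective φ ∧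
      φ X = x ∧ φ Y = y := by
  obtain ⟨K, iK, φ, hφ, hs⟩ := comm_model ({x, y} : Set R) (by
    rintro a (rfl | rfl) b (rfl | rfl)
    · rfl
    · exact h
    · exact h.symm
    · rfl)
  obtain ⟨X, hX⟩ := hs x (Or.inl rfl)
  obtain ⟨Y, hY⟩ := hs y (Or.inr rfl)
  exact ⟨K, iK, φ, X, Y, hφ, hX, hY⟩

/-- the elements of order `3` -/
def Dt (G : Subgroup Rˣ) (a : Rˣ) : Prop := a ∈ G ∧ a ^ 3 = 1

variable {G : Subgroup Rˣ}

theorem Dt.inv {a : Rˣ} (h : Dt G a) : Dt G a⁻¹ :=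
  ⟨inv_mem h.1, by rw [inv_pow, h.2, inv_one]⟩

theorem Dt.conj {a g : Rˣ} (h : Dt G a) (hg : g ∈ G) : Dt G (g * a * g⁻¹) := by
  refine ⟨mul_mem (mul_mem hg h.1) (inv_mem hg), ?_⟩
  rw [conj_pow, h.2, mul_one, mul_inv_cancel]

theorem Tw.pow12 (H : Tw G) {g : Rˣ} (hg : g ∈ G) : g ^ 12 = 1 := by
  refine Units.ext ?_
  have h := H.law g hg
  rw [Units.val_pow_eq_pow_val, Units.val_one]
  have e : (g : R) ^ 12 - 1 = ((g : R) ^ 4 - 1) * ((g : R) ^ 8 + (g : R) ^ 4 + 1) := by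
    noncomm_ring
  rw [h, mul_zero] at e
  exact sub_eq_zero.1 e

theorem Tw.pow4 (H : Tw G) {g : Rˣ} (hg : g ∈ G) (h8 : g ^ 8 = 1) : g ^ 4 = 1 := by
  have h := H.pow12 hg
  have e : g ^ 12 = g ^ 8 * g ^ 4 := by rw [← pow_add]
  rw [e, h8, one_mul] at h
  exact h

theorem Tw.t3 (H : Tw G) : (1 : R) + 1 + 1 = 0 := by
  have := H.three
  have e : (3 : R) = 1 + 1 + 1 := by norm_num
  rw [← e, this]

theorem Tw.sq (H : Tw G) {a : Rˣ} (ha : Dt G a) : ((a : R) - 1) * ((a : R) - 1) = 0 := by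
  have h := H.law a ha.1
  have h3 : (a : R) ^ 3 = 1 := by
    rw [← Units.val_pow_eq_pow_val, ha.2, Units.val_one]
  have e8 : (a : R) ^ 8 = (a : R) ^ 2 := by
    have : (a : R) ^ 8 = (a : R) ^ 3 * (a : R) ^ 3 * (a : R) ^ 2 := by noncomm_ring
    rw [this, h3, one_mul, one_mul]
  have e4 : (a : R) ^ 4 = a := by
    have : (a : R) ^ 4 = (a : R) ^ 3 * (a : R) := by noncomm_ring
    rw [this, h3, one_mul]
  rw [e8, e4] at h
  linear_combination (norm := noncomm_ring) h - H.t3 * (a : R)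

/-- inverses of elements of order `3` -/
theorem Tw.inv_val (H : Tw G) {a : Rˣ} (ha : Dt G a) : ((a⁻¹ : Rˣ) : R) = 1 - ((a : R) - 1) := by
  have h := H.sq ha
  have e : (a : R) * (1 - ((a : R) - 1)) = 1 - ((a : R) - 1) * ((a : R) - 1) := by noncomm_ring
  rw [h, sub_zero] at e
  exact (Units.inv_eq_of_mul_eq_one_right (u := a) e).symm ▸ rfl

/-- `AB + BA` for `A = a - 1`, `B = b - 1` -/
def Tt (a b : R) : R := (a - 1) * (b - 1) + (b - 1) * (a - 1)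

theorem Tt_comm (a b : R) : Tt a b = Tt b a := by
  rw [Tt, Tt, add_comm]

/-- the idempotent on which `Tt` is `1` -/
def ep (a b : R) : R := -(Tt a b * Tt a b + Tt a b)

theorem tr_law (h3 : (1 : R) + 1 + 1 = 0) (x : Rˣ) (hl : (x : R) ^ 8 + (x : R) ^ 4 + 1 = 0) :
    ((x : R) + (x⁻¹ : Rˣ)) * ((x : R) + (x⁻¹ : Rˣ)) *
      (((x : R) + (x⁻¹ : Rˣ)) * ((x : R) + (x⁻¹ : Rˣ))) =
    ((x : R) + (x⁻¹ : Rˣ)) * ((x : R) + (x⁻¹ : Rˣ)) := by
  obtain ⟨K, _, φ, X, Y, hφ, hX, hY⟩ := comm_model2 (x := (x : R)) (y := ((x⁻¹ : Rˣ) : R)) (by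
    rw [Units.mul_inv, Units.inv_mul])
  rw [← hX, ← hY]
  have h3' : (1 : K) + 1 + 1 = 0 := hφ (by simpa using h3)
  have h1 : X * Y = 1 := hφ (by rw [map_mul, hX, hY, Units.mul_inv, map_one])
  have hl' : X ^ 8 + X ^ 4 + 1 = 0 := hφ (by simpa [hX] using hl)
  have h5 : X ^ 4 + 1 + Y ^ 4 = 0 := by
    linear_combination Y ^ 4 * hl' -
      (X ^ 4 + 1) * (X ^ 3 * Y ^ 3 + X ^ 2 * Y ^ 2 + X * Y + 1) * h1
  have h6 : (X + Y) * (X + Y) * ((X + Y) * (X + Y)) = (X + Y) * (X + Y) := by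
    linear_combination h5 + (4 * X ^ 2 + 4 * Y ^ 2 + 6 * (X * Y + 1) - 2) * h1 +
      (X ^ 2 + Y ^ 2 + 1) * h3'
  have := congrArg φ h6
  simpa using this

end

end Pool.Agent.Helper140_T12
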