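import Pool.Agent.Helper140_T12.Un

/-!
# Groups of exponent twelve: normal subgroups without normal `2`-subgroups
-/

set_option autoImplicit false

namespace Pool.Agent.Helper140_T12

open Pool.Agent.Helper140_E5
open Subgroup
open scoped commutatorElement

universe u v

/-- central by `2`-groups: products of `2`-elements -/
theorem two_mul {F : Type u} [Group F] (h12 : ∀ x : F, x ^ 12 = 1) [hf : Finite F]
    {Z : Subgroup F} (hZ : Z ≤ center F) (h4 : ∀ x : F, x ^ 4 ∈ Z) {x y : F} (hx : x ^ 4 = 1)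
    (hy : y ^ 4 = 1) : (x * y) ^ 4 = 1 := by
  have hZn : Z.Normal := ⟨fun n hn g => by
    have := mem_center_iff.1 (hZ hn) g
    rw [this, mul_inv_cancel_right]
    exact hn⟩
  have : Fact (Nat.Prime 2) := ⟨Nat.prime_two⟩
  have hp : IsPGroup 2 (F ⧸ Z) := by
    intro g
    obtain ⟨g, rfl⟩ := QuotientGroup.mk_surjective g
    refine ⟨2, ?_⟩
    rw [← QuotientGroup.mk_pow]
    exact (QuotientGroup.eq_one_iff _).2 (h4 g)
  obtain ⟨n, hn⟩ := IsPGroup.iff_card.1 hp
  have hi : (center F).index ∣ 2 ^ n := by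
    rw [← hn]
    exact index_dvd_of_le hZ
  set i := (center F).index with hidef
  have hxy : (x * y) ^ i = x ^ i * y ^ i := by
    have := congrArg Subtype.val (map_mul (MonoidHom.transferCenterPow F) x y)
    rw [MonoidHom.transferCenterPow_apply] at this
    exact this
  have hc : Commute (x ^ i) (y ^ i) := by
    have h1 : y ^ i ∈ center F := by
      have := (MonoidHom.transferCenterPow F y).2
      rwa [MonoidHom.transferCenterPow_apply] at this
    exact mem_center_iff.1 h1 (x ^ i)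
  have h5 : (x * y) ^ (i * 4) = 1 := by
    rw [pow_mul, hxy, hc.mul_pow, ← pow_mul, ← pow_mul, mul_comm i 4, pow_mul, pow_mul, hx, hy,
      one_pow, one_mul]
  have h6 : orderOf (x * y) ∣ Nat.gcd (i * 4) 12 :=
    Nat.dvd_gcd (orderOf_dvd_of_pow_eq_one h5) (orderOf_dvd_of_pow_eq_one (h12 _))
  have h7 : Nat.gcd (i * 4) 12 = 4 := by
    have h8 : Nat.Coprime i 3 := Nat.Coprime.coprime_dvd_left hi (by
      exact Nat.Coprime.pow_left n (by norm_num))
    have : Nat.gcd (i * 4) (3 * 4) = Nat.gcd i 3 * 4 := Nat.gcd_mul_right i 4 3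
    rw [h8] at this
    exact this
  rw [h7] at h6
  exact orderOf_dvd_iff_pow_eq_one.1 h6

theorem A_two {A : Type u} [Group A] (h12 : ∀ x : A, x ^ 12 = 1)
    {Z : Subgroup A} (hZ : Z ≤ center A) (h4 : ∀ x : A, x ^ 4 ∈ Z) {x y : A} (hx : x ^ 4 = 1)
    (hy : y ^ 4 = 1) : (x * y) ^ 4 = 1 := by
  have hZn : Z.Normal := ⟨fun n hn g => by
    have := mem_center_iff.1 (hZ hn) g
    rw [this, mul_inv_cancel_right]
    exact hn⟩
  have hl : LFin A := by
    refine schmidt (QuotientGroup.mk' Z) ?_ ?_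
    · rw [QuotientGroup.ker_mk']
      refine lf_comm (fun a b => Subtype.ext ?_) (n := 12) (by norm_num) fun a => Subtype.ext (h12 a)
      exact mem_center_iff.1 (hZ b.2) a
    · refine LFin.inj (MonoidHom.range _).subtype (Subgroup.subtype_injective _) (lf_four ?_)
      intro g
      obtain ⟨g, rfl⟩ := QuotientGroup.mk_surjective g
      rw [← QuotientGroup.mk_pow]
      exact (QuotientGroup.eq_one_iff _).2 (h4 g)
  have hf := hl {x, y} (by simp)
  set F := closure ({x, y} : Set A) with hF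
  have hxF : x ∈ F := subset_closure (by simp)
  have hyF : y ∈ F := subset_closure (by simp)
  have h := two_mul (F := F) (fun a => Subtype.ext (h12 a)) (Z := Z.subgroupOf F) (by
    intro a ha
    rw [mem_center_iff]
    intro b
    exact Subtype.ext (mem_center_iff.1 (hZ ha) b)) (fun a => h4 a) (x := ⟨x, hxF⟩)
    (y := ⟨y, hyF⟩) (Subtype.ext hx) (Subtype.ext hy)
  exact congrArg Subtype.val h

section
variable {G : Type u} [Group G]

theorem three_of_nine (h12 : ∀ x : G, x ^ 12 = 1) {x : G} (h : x ^ 9 = 1) : x ^ 3 = 1 := by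
  have h1 := h12 x
  have e : x ^ 12 = x ^ 9 * x ^ 3 := by rw [← pow_add]
  rw [e, h, one_mul] at h1
  exact h1

/-- the largest normal subgroup of exponent three -/
theorem exists_O3 (h12 : ∀ x : G, x ^ 12 = 1) (N : Subgroup G) : ∃ P : Subgroup G, P.Normal ∧
    P ≤ N ∧ (∀ x ∈ P, x ^ 3 = 1) ∧ ∀ L : Subgroup G, L.Normal → L ≤ N → (∀ x ∈ L, x ^ 3 = 1) →
      L ≤ P := by
  refine ⟨{ carrier := {x | ∃ L : Subgroup G, L.Normal ∧ L ≤ N ∧ (∀ y ∈ L, y ^ 3 = 1) ∧ x ∈ L}
            one_mem' := ⟨⊥, inferInstance, bot_le, fun y hy => by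
              rw [mem_bot] at hy
              rw [hy, one_pow], one_mem _⟩
            mul_mem' := ?_
            inv_mem' := fun {x} ⟨L, h1, h2, h3, h4⟩ => ⟨L, h1, h2, h3, inv_mem h4⟩ }, ?_, ?_, ?_, ?_⟩
  · rintro x y ⟨L, h1, h2, h3, h4⟩ ⟨K, k1, k2, k3, k4⟩
    refine ⟨L ⊔ K, inferInstance, sup_le h2 k2, ?_, mul_mem (mem_sup_left h4) (mem_sup_right k4)⟩
    intro z hz
    have hz' : z ∈ ((L ⊔ K : Subgroup G) : Set G) := hz
    rw [mul_normal] at hz'
    obtain ⟨a, ha, b, hb, rfl⟩ := hz'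
    have h5 : (a * b) ^ 3 ∈ K := by
      rw [← QuotientGroup.eq_one_iff (N := K), QuotientGroup.mk_pow, QuotientGroup.mk_mul,
        (QuotientGroup.eq_one_iff b).2 hb, mul_one, ← QuotientGroup.mk_pow, h3 a ha,
        QuotientGroup.mk_one]
    refine three_of_nine h12 ?_
    have e : (a * b) ^ 9 = ((a * b) ^ 3) ^ 3 := by rw [← pow_mul]
    change (a * b) ^ 9 = 1
    rw [e, k3 _ h5]
  · refine ⟨fun x hx g => ?_⟩
    obtain ⟨L, h1, h2, h3, h4⟩ := hx
    exact ⟨L, h1, h2, h3, h1.conj_mem x h4 g⟩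
  · rintro x ⟨L, h1, h2, h3, h4⟩
    exact h2 h4
  · rintro x ⟨L, h1, h2, h3, h4⟩
    exact h3 x h4
  · intro L h1 h2 h3 x hx
    exact ⟨L, h1, h2, h3, hx⟩

/-- a subgroup has a finite series of normal subgroups with factors of exponent three or four -/
def Ser (N : Subgroup G) : Prop :=
  ∃ (k : ℕ) (M : ℕ → Subgroup G), M 0 = ⊥ ∧ M k = N ∧ (∀ i, (M i).Normal) ∧
    ∀ i < k, (∀ x ∈ M (i + 1), x ^ 3 ∈ M i) ∨ (∀ x ∈ M (i + 1), x ^ 4 ∈ M i)

/-- the largest normal subgroup of exponent three contains its centraliser -/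
theorem cen_le (h12 : ∀ x : G, x ^ 12 = 1) {N : Subgroup G} (hN : N.Normal) (hs : Ser N)
    (h2 : ∀ L : Subgroup G, L.Normal → L ≤ N → (∀ x ∈ L, x ^ 4 = 1) → L = ⊥) :
    ∃ P : Subgroup G, P.Normal ∧ P ≤ N ∧ (∀ x ∈ P, x ^ 3 = 1) ∧
      N ⊓ centralizer (P : Set G) ≤ P := by
  obtain ⟨P, hP, hPN, hP3, hPmax⟩ := exists_O3 h12 N
  refine ⟨P, hP, hPN, hP3, ?_⟩
  obtain ⟨k, M, hM0, hMk, hMn, hM⟩ := hs
  set C := N ⊓ centralizer (P : Set G) with hC
  have hCn : C.Normal := by
    have : (centralizer (P : Set G)).Normal := inferInstance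
    exact normal_inf_normal _ _
  have key : ∀ i, i ≤ k → C ⊓ M i ≤ P := by
    intro i
    induction i with
    | zero =>
      intro _
      rw [hM0, inf_bot_eq]
      exact bot_le
    | succ i ih =>
      intro hik
      have ih' := ih (by omega)
      have hMi := hMn i
      have hMi' := hMn (i + 1)
      set A := C ⊓ M (i + 1) with hA
      have hAn : A.Normal := normal_inf_normal _ _
      have hAN : A ≤ N := inf_le_left.trans inf_le_left
      rcases hM i (by omega) with h | h
      · refine hPmax A hAn hAN fun x hx => three_of_nine h12 ?_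
        have h5 : x ^ 3 ∈ P := ih' ⟨pow_mem hx.1 3, h x hx.2⟩
        have e : x ^ 9 = (x ^ 3) ^ 3 := by rw [← pow_mul]
        rw [e, hP3 _ h5]
      · have h5 : ∀ x ∈ A, x ^ 4 ∈ P := fun x hx => ih' ⟨pow_mem hx.1 4, h x hx.2⟩
        have hmul : ∀ x ∈ A, ∀ y ∈ A, x ^ 4 = 1 → y ^ 4 = 1 → (x * y) ^ 4 = 1 := by
          intro x hx y hy hx4 hy4
          have := A_two (A := A) (fun a => Subtype.ext (h12 a)) (Z := P.subgroupOf A) (by
            intro a ha
            rw [mem_center_iff]
            intro b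
            have hb : (b : G) ∈ centralizer (P : Set G) := b.2.1.2
            exact Subtype.ext (mem_centralizer_iff.1 hb _ ha).symm) (fun a => h5 a a.2)
            (x := ⟨x, hx⟩) (y := ⟨y, hy⟩) (Subtype.ext hx4) (Subtype.ext hy4)
          exact congrArg Subtype.val this
        have h6 := h2 { carrier := {x | x ∈ A ∧ x ^ 4 = 1}
                        one_mem' := ⟨one_mem _, one_pow _⟩
                        mul_mem' := fun {x y} hx hy => ⟨mul_mem hx.1 hy.1,
                          hmul x hx.1 y hy.1 hx.2 hy.2⟩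
                        inv_mem' := fun {x} hx => ⟨inv_mem hx.1, by
                          rw [inv_pow, hx.2, inv_one]⟩ } ⟨fun x hx g =>
                            ⟨hAn.conj_mem x hx.1 g, by
                              rw [conj_pow, hx.2, mul_one, mul_inv_cancel]⟩⟩
          (fun x hx => hAN hx.1) (fun x hx => hx.2)
        refine hPmax A hAn hAN fun x hx => ?_
        have h7 : x ^ 3 ∈ (⊥ : Subgroup G) := by
          rw [← h6]
          refine ⟨pow_mem hx 3, ?_⟩
          rw [← pow_mul]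
          exact h12 x
        exact mem_bot.1 h7
  have := key k le_rfl
  rw [hMk] at this
  exact fun x hx => this ⟨hx, hx.1⟩

/-- commutators of elements acting trivially on the factors of `N ≥ M ≥ 1` -/
theorem stab_comm' {N M : Subgroup G} (hN : N.Normal) (hM : M.Normal) {g h : G}
    (g1 : ∀ n ∈ N, ⁅n, g⁆ ∈ M) (g2 : g ∈ centralizer (M : Set G)) (h1 : ∀ n ∈ N, ⁅n, h⁆ ∈ M)
    (h2 : h ∈ centralizer (M : Set G)) : ⁅g, h⁆ ∈ centralizer (N : Set G) := by
  rw [mem_centralizer_iff] at g2 h2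
  have key : ∀ n ∈ N, (g * h) * n * (g * h)⁻¹ = (h * g) * n * (h * g)⁻¹ := by
    intro n hn
    have a1 := g1 _ (inv_mem hn)
    have b1 := h1 _ (inv_mem hn)
    set a := ⁅n⁻¹, g⁆ with ha
    set b := ⁅n⁻¹, h⁆ with hb
    have ea : g * n * g⁻¹ = n * a := by
      rw [ha, commutatorElement_def]
      group
    have eb : h * n * h⁻¹ = n * b := by
      rw [hb, commutatorElement_def]
      group
    have gb := g2 b b1
    have ha' := h2 a a1
    have gb' : g * b * g⁻¹ = b := by rw [← gb, mul_inv_cancel_right]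
    have ha'' : h * a * h⁻¹ = a := by rw [← ha', mul_inv_cancel_right]
    have hx : n * b * n⁻¹ ∈ M := hM.conj_mem _ b1 n
    have e1 := g2 _ hx
    have e2 : g * (n * b * n⁻¹) * g⁻¹ = n * b * n⁻¹ := by rw [← e1, mul_inv_cancel_right]
    have e3 : g * (n * b * n⁻¹) * g⁻¹ = n * a * b * a⁻¹ * n⁻¹ := by
      calc g * (n * b * n⁻¹) * g⁻¹ = (g * n * g⁻¹) * (g * b * g⁻¹) * (g * n * g⁻¹)⁻¹ := by group
        _ = n * a * b * (n * a)⁻¹ := by rw [ea, gb']
        _ = n * a * b * a⁻¹ * n⁻¹ := by group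
    rw [e2] at e3
    have e4 : b = a * b * a⁻¹ := by
      have := congrArg (fun z => n⁻¹ * z * n) e3
      simpa [mul_assoc] using this
    have e5 : b * a = a * b := by
      calc b * a = a * b * a⁻¹ * a := by rw [← e4]
        _ = a * b := by group
    calc (g * h) * n * (g * h)⁻¹ = g * (h * n * h⁻¹) * g⁻¹ := by group
      _ = (g * n * g⁻¹) * (g * b * g⁻¹) := by rw [eb]; group
      _ = n * (a * b) := by rw [ea, gb', mul_assoc]
      _ = n * b * a := by rw [← e5, mul_assoc]
      _ = (h * n * h⁻¹) * (h * a * h⁻¹) := by rw [eb, ha'']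
      _ = h * (n * a) * h⁻¹ := by group
      _ = h * (g * n * g⁻¹) * h⁻¹ := by rw [ea]
      _ = (h * g) * n * (h * g)⁻¹ := by group
  rw [mem_centralizer_iff]
  intro x hx
  have hy : (h * g)⁻¹ * x * (h * g) ∈ N := by
    have := hN.conj_mem x hx (h * g)⁻¹
    rw [inv_inv] at this
    exact this
  have := key _ hy
  have e : (h * g) * ((h * g)⁻¹ * x * (h * g)) * (h * g)⁻¹ = x := by group
  rw [e] at this
  have e' : ⁅g, h⁆ * x * ⁅g, h⁆⁻¹ = x := by
    rw [← this, commutatorElement_def]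
    group
    have := key _ hy
    rw [e] at this
    nth_rw 2 [← this]
    group
  exact (mul_inv_eq_iff_eq_mul.1 e').symm

/-- the centraliser of `N` -/
theorem core_lfq (h12 : ∀ x : G, x ^ 12 = 1) {N P : Subgroup G} (hN : N.Normal) (hP : P.Normal)
    (h3 : ∀ x ∈ P, x ^ 3 = 1) (hc : N ⊓ centralizer (P : Set G) ≤ P) :
    LFq (centralizer (N : Set G)) := by
  have hCn : (centralizer (P : Set G)).Normal := inferInstance
  have hMn : (N ⊓ centralizer (P : Set G)).Normal := normal_inf_normal _ _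
  refine (n3_lfq h12 hP h3).chain fun S hS hSC => ?_
  have hst : ∀ g ∈ closure S, ∀ h ∈ closure S, ⁅g, h⁆ ∈ centralizer (N : Set G) := by
    have h1 : ∀ g ∈ closure S, ∀ n ∈ N, ⁅n, g⁆ ∈ N ⊓ centralizer (P : Set G) := by
      intro g hg n hn
      constructor
      · rw [commutatorElement_def, mul_assoc, mul_assoc]
        refine mul_mem hn ?_
        rw [← mul_assoc]
        exact hN.conj_mem _ (inv_mem hn) g
      · rw [commutatorElement_def]
        have hg' : g ∈ centralizer (P : Set G) := hSC hg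
        have h0 : n * g * n⁻¹ * g⁻¹ ∈ centralizer (P : Set G) :=
          mul_mem (hCn.conj_mem _ hg' n) (inv_mem hg')
        exact h0
    have h2 : ∀ g ∈ closure S, g ∈ centralizer ((N ⊓ centralizer (P : Set G) : Subgroup G) :
        Set G) := by
      intro g hg
      rw [mem_centralizer_iff]
      intro n hn
      exact mem_centralizer_iff.1 (hSC hg) n (hc hn)
    exact fun g hg h hh => stab_comm' hN hMn (h1 g hg) (h2 g hg) (h1 h hh) (h2 h hh)
  set H := closure S with hH
  have hCN : (centralizer (N : Set G)).Normal := inferInstance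
  set C' := (centralizer (N : Set G)).subgroupOf H with hC'
  have hlf : LFin (H ⧸ C') := by
    refine lf_comm ?_ (n := 12) (by norm_num) ?_
    · intro x y
      obtain ⟨x, rfl⟩ := QuotientGroup.mk_surjective x
      obtain ⟨y, rfl⟩ := QuotientGroup.mk_surjective y
      have : ⁅x, y⁆ ∈ C' := by
        rw [hC', mem_subgroupOf]
        exact hst x x.2 y y.2
      have h1 := (QuotientGroup.eq_one_iff (N := C') _).2 this
      change (QuotientGroup.mk' C') ⁅x, y⁆ = 1 at h1
      rw [map_commutatorElement] at h1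
      exact commutatorElement_eq_one_iff_mul_comm.1 h1
    · intro x
      obtain ⟨x, rfl⟩ := QuotientGroup.mk_surjective x
      rw [← QuotientGroup.mk_pow]
      have : x ^ 12 = 1 := Subtype.ext (h12 x)
      rw [this, QuotientGroup.mk_one]
  have h3 : Group.FG H := by
    rw [Group.fg_iff_subgroup_fg]
    exact ⟨hS.toFinset, by rw [Set.Finite.coe_toFinset]⟩
  have h4 : Group.FG (H ⧸ C') := QuotientGroup.fg C'
  obtain ⟨T, hT⟩ := h4.out
  have h6 := hlf T T.finite_toSet
  rw [hT] at h6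
  have h7 : Finite (H ⧸ C') := Finite.of_injective
    (fun k => (⟨k, trivial⟩ : (⊤ : Subgroup (H ⧸ C')))) fun x y hxy => congrArg Subtype.val hxy
  have h8 : C'.FiniteIndex := Subgroup.finiteIndex_of_finite_quotient
  exact h8.index_ne_zero

/-- `N` is locally finite -/
theorem core_lf (h12 : ∀ x : G, x ^ 12 = 1) {N P : Subgroup G} (hN : N.Normal) (hP : P.Normal)
    (h3 : ∀ x ∈ P, x ^ 3 = 1) (hc : N ⊓ centralizer (P : Set G) ≤ P) : LFin N := by
  have hq := core_lfq h12 hN hP h3 hc
  refine lf_crit' (C := (centralizer (N : Set G)).subgroupOf N) ?_ ?_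
  · intro S hS
    have h1 := hq (N.subtype '' S) (hS.image _)
    rw [← MonoidHom.map_closure, ← relIndex_comap] at h1
    exact h1
  · refine lf_comm ?_ (n := 12) (by norm_num) fun x => Subtype.ext (Subtype.ext (h12 _))
    intro x y
    exact Subtype.ext (Subtype.ext (mem_centralizer_iff.1 y.2 _ x.1.2))

/-- the group generated by the conjugates of `x` under `H` -/
def cjs (H : Subgroup G) (x : G) : Subgroup G := closure {y | ∃ h ∈ H, y = h * x * h⁻¹}

theorem cjs_top (x : G) : cjs ⊤ x = normalClosure {x} := by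
  rw [cjs, normalClosure]
  congr 1
  ext y
  rw [Group.mem_conjugatesOfSet_iff]
  constructor
  · rintro ⟨g, -, rfl⟩
    exact ⟨x, rfl, isConj_iff.2 ⟨g, rfl⟩⟩
  · rintro ⟨_, rfl, hy⟩
    obtain ⟨g, rfl⟩ := isConj_iff.1 hy
    exact ⟨g, trivial, rfl⟩

theorem core_fin (h12 : ∀ x : G, x ^ 12 = 1) {N P : Subgroup G} (hN : N.Normal) (hP : P.Normal)
    (h3 : ∀ x ∈ P, x ^ 3 = 1) (hc : N ⊓ centralizer (P : Set G) ≤ P) {S : Set G} (hS : S.Finite)
    {x : G} (hx : x ∈ N) : Finite (cjs (closure S) x) := by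
  have h1 := core_lfq h12 hN hP h3 hc S hS
  set H := closure S with hH
  set C' := (centralizer (N : Set G)).subgroupOf H with hC'
  have hf : C'.FiniteIndex := ⟨h1⟩
  have h2 : ({y | ∃ h ∈ H, y = h * x * h⁻¹} : Set G).Finite := by
    have h5 : ∀ g h : H, (QuotientGroup.mk g : H ⧸ C') = QuotientGroup.mk h →
        (g : G) * x * (g : G)⁻¹ = h * x * (h : G)⁻¹ := by
      intro g h hgh
      rw [QuotientGroup.eq, hC', mem_subgroupOf, mem_centralizer_iff] at hgh
      have := hgh x hx
      rw [Subgroup.coe_mul, Subgroup.coe_inv] at this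
      have e : (g : G) * (x * ((g : G)⁻¹ * h)) * (h : G)⁻¹ =
          g * (((g : G)⁻¹ * h) * x) * (h : G)⁻¹ := by rw [this]
      calc (g : G) * x * (g : G)⁻¹ = g * (x * ((g : G)⁻¹ * h)) * (h : G)⁻¹ := by group
        _ = g * (((g : G)⁻¹ * h) * x) * (h : G)⁻¹ := e
        _ = h * x * (h : G)⁻¹ := by group
    have h6 : ({y | ∃ h ∈ H, y = h * x * h⁻¹} : Set G) ⊆
        Set.range (fun c : H ⧸ C' => (c.out : G) * x * (c.out : G)⁻¹) := by
      rintro _ ⟨g, hg, rfl⟩
      exact ⟨QuotientGroup.mk (⟨g, hg⟩ : H), h5 _ ⟨g, hg⟩ (QuotientGroup.out_eq' _)⟩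
    exact (Set.finite_range _).subset h6
  refine lf_cl (core_lf h12 hN hP h3 hc) h2 ?_
  rintro _ ⟨h, -, rfl⟩
  exact hN.conj_mem x hx h

end

theorem cjs_map {G : Type u} {K : Type v} [Group G] [Group K] (f : G →* K) (H : Subgroup G)
    (x : G) : (cjs H x).map f = cjs (H.map f) (f x) := by
  rw [cjs, cjs, MonoidHom.map_closure]
  congr 1
  ext y
  constructor
  · rintro ⟨_, ⟨h, hh, rfl⟩, rfl⟩
    exact ⟨f h, ⟨h, hh, rfl⟩, by rw [map_mul, map_mul, map_inv]⟩
  · rintro ⟨_, ⟨h, hh, rfl⟩, rfl⟩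
    exact ⟨h * x * h⁻¹, ⟨h, hh, rfl⟩, by rw [map_mul, map_mul, map_inv]⟩

/-- uniform bounds -/
theorem core_unif (d : ℕ) : ∃ m : ℕ, ∀ (G : Type u) [Group G] (a : Fin d → G)
    (N P : Subgroup G), (∀ x : G, x ^ 12 = 1) → N.Normal → P.Normal → (∀ x ∈ P, x ^ 3 = 1) →
    N ⊓ centralizer (P : Set G) ≤ P →
    (centralizer (N : Set G)).relIndex (closure (Set.range a)) ≤ m ∧
    ∀ x ∈ N, Nat.card (cjs (closure (Set.range a)) x) ≤ m := by
  classical
  by_contra hcon
  push Not at hcon
  have hcon' : ∀ m : ℕ, ∃ (G : Type u) (_ : Group G) (a : Fin d → G) (N P : Subgroup G) (x : G),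
      (∀ x : G, x ^ 12 = 1) ∧ N.Normal ∧ P.Normal ∧ (∀ x ∈ P, x ^ 3 = 1) ∧
      N ⊓ centralizer (P : Set G) ≤ P ∧ x ∈ N ∧
      (m < (centralizer (N : Set G)).relIndex (closure (Set.range a)) ∨
        m < Nat.card (cjs (closure (Set.range a)) x)) := by
    intro m
    obtain ⟨G, i, a, N, P, h12, hN, hP, h3, hc, h⟩ := hcon m
    by_cases hm : (centralizer (N : Set G)).relIndex (closure (Set.range a)) ≤ m
    · obtain ⟨x, hx, hxm⟩ := h hm
      exact ⟨G, i, a, N, P, x, h12, hN, hP, h3, hc, hx, Or.inr hxm⟩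
    · exact ⟨G, i, a, N, P, 1, h12, hN, hP, h3, hc, one_mem _, Or.inl (not_le.1 hm)⟩
  choose G iG a N P x h12 hN hP h3 hc hx hm using hcon'
  have hN' := pN_normal hN
  have hP' := pN_normal hP
  have hcen : ∀ (L : ∀ m, Subgroup (G m)) (y : ∀ m, G m),
      y ∈ centralizer ((pN L : Subgroup (∀ m, G m)) : Set (∀ m, G m)) → ∀ q,
      y q ∈ centralizer ((L q : Subgroup (G q)) : Set (G q)) := by
    intro L y hy q
    rw [mem_centralizer_iff] at hy ⊢
    intro n hn
    have h4 := hy (Pi.mulSingle q n) (by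
      intro m
      by_cases hmq : m = q
      · subst hmq
        rw [Pi.mulSingle_eq_same]
        exact hn
      · rw [Pi.mulSingle_eq_of_ne hmq]
        exact one_mem _)
    have h5 := congrFun h4 q
    rw [Pi.mul_apply, Pi.mul_apply, Pi.mulSingle_eq_same] at h5
    exact h5
  have hc' : pN N ⊓ centralizer ((pN P : Subgroup (∀ m, G m)) : Set (∀ m, G m)) ≤ pN P := by
    intro y hy m
    exact hc m ⟨hy.1 m, hcen P y hy.2 m⟩
  have h12' : ∀ x : ∀ m, G m, x ^ 12 = 1 := fun x => funext fun m => h12 m (x m)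
  have h3' : ∀ x ∈ pN P, x ^ 3 = 1 := fun x hx => funext fun m => h3 m _ (hx m)
  set a' : Fin d → ∀ m, G m := fun i m => a m i with ha'
  have h1 := core_lfq h12' hN' hP' h3' hc' (Set.range a') (Set.finite_range _)
  have h2 := core_fin h12' hN' hP' h3' hc' (Set.finite_range a') (x := x) (fun m => hx m)
  set q1 := (centralizer ((pN N : Subgroup (∀ m, G m)) : Set (∀ m, G m))).relIndex
    (closure (Set.range a')) with hq1
  set q2 := Nat.card (cjs (closure (Set.range a')) x) with hq2
  set q := max q1 q2 with hq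
  set π : (∀ m, G m) →* G q := Pi.evalMonoidHom G q with hπ
  have h3 : (closure (Set.range a')).map π = closure (Set.range (a q)) := by
    rw [MonoidHom.map_closure, ← Set.range_comp]
    rfl
  rcases hm q with hm | hm
  · rw [← h3, ← relIndex_comap] at hm
    refine absurd ?_ (not_le.2 hm)
    refine (relIndex_le_of_le_left ?_ h1).trans (le_max_left _ _)
    intro y hy
    exact hcen N y hy q
  · have h5 : cjs (closure (Set.range (a q))) (x q) = (cjs (closure (Set.range a')) x).map π := by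
      rw [cjs_map, h3]
      rfl
    rw [h5] at hm
    have h4 : Function.Surjective (fun y : cjs (closure (Set.range a')) x => (⟨_, y, y.2, rfl⟩ :
        (cjs (closure (Set.range a')) x).map π)) := by
      rintro ⟨_, y, hy, rfl⟩
      exact ⟨⟨y, hy⟩, rfl⟩
    exact absurd ((Nat.card_le_card_of_surjective _ h4).trans (le_max_right _ _)) (not_le.2 hm)

section
variable {G : Type u} [Group G]

theorem Ser.step {N K L : Subgroup G} (h : Ser N) (hK : K.Normal) (hL : L.Normal)
    (h1 : ∀ x ∈ K, x ^ 3 ∈ N) (h2 : ∀ x ∈ L, x ^ 4 ∈ K) : Ser L := by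
  obtain ⟨k, M, hM0, hMk, hMn, hM⟩ := h
  refine ⟨k + 2, fun i => if i ≤ k then M i else if i = k + 1 then K else L, ?_, ?_, ?_, ?_⟩
  · simp [hM0]
  · simp
  · intro i
    change (if i ≤ k then M i else if i = k + 1 then K else L).Normal
    split_ifs
    · exact hMn i
    · exact hK
    · exact hL
  · intro i hi
    rcases Nat.lt_or_ge i k with h | h
    · have h3 : i ≤ k := h.le
      have h4 : i + 1 ≤ k := h
      simp only [h3, h4, if_true]
      exact hM i h
    · rcases Nat.eq_or_lt_of_le h with h | h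
      · subst h
        left
        intro x hx
        simp only [le_refl, if_true]
        rw [hMk]
        refine h1 x ?_
        simpa using hx
      · have h5 : i = k + 1 := by omega
        subst h5
        right
        intro x hx
        have h6 : x ∈ L := by simpa using hx
        simpa using h2 x h6

theorem ser_of_ds (h12 : ∀ x : G, x ^ 12 = 1) (l : ℕ) : ∀ N : Subgroup G, N.Normal →
    ds N l = ⊥ → Ser N := by
  induction l with
  | zero =>
    intro N _ h
    exact ⟨0, fun _ => ⊥, rfl, h.symm, fun _ => inferInstance, fun i hi => by omega⟩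
  | succ l ih =>
    intro N hN h
    have hN' : (⁅N, N⁆ : Subgroup G).Normal := commutator_normal _ _
    have h1 := ih ⁅N, N⁆ hN' (by rw [ds_shift]; exact h)
    have hmul : ∀ x ∈ N, ∀ y ∈ N, x ^ 3 ∈ (⁅N, N⁆ : Subgroup G) → y ^ 3 ∈ (⁅N, N⁆ : Subgroup G) →
        (x * y) ^ 3 ∈ (⁅N, N⁆ : Subgroup G) := by
      intro x hx y hy hx3 hy3
      rw [← QuotientGroup.eq_one_iff] at hx3 hy3 ⊢
      have hc : Commute (QuotientGroup.mk' ⁅N, N⁆ x) (QuotientGroup.mk' ⁅N, N⁆ y) := by
        rw [← commutatorElement_eq_one_iff_commute, ← map_commutatorElement]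
        exact (QuotientGroup.eq_one_iff _).2 (commutator_mem_commutator hx hy)
      change QuotientGroup.mk' ⁅N, N⁆ (x ^ 3) = 1 at hx3
      change QuotientGroup.mk' ⁅N, N⁆ (y ^ 3) = 1 at hy3
      change QuotientGroup.mk' ⁅N, N⁆ ((x * y) ^ 3) = 1
      rw [map_pow, map_mul, hc.mul_pow, ← map_pow, ← map_pow, hx3, hy3, one_mul]
    refine h1.step (K := { carrier := {x | x ∈ N ∧ x ^ 3 ∈ (⁅N, N⁆ : Subgroup G)}
                           one_mem' := ⟨one_mem _, by rw [one_pow]; exact one_mem _⟩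
                           mul_mem' := fun {x y} hx hy => ⟨mul_mem hx.1 hy.1,
                             hmul x hx.1 y hy.1 hx.2 hy.2⟩
                           inv_mem' := fun {x} hx => ⟨inv_mem hx.1, by
                             rw [inv_pow]; exact inv_mem hx.2⟩ }) ⟨fun x hx g =>
                              ⟨hN.conj_mem x hx.1 g, by
                                rw [conj_pow]; exact hN'.conj_mem _ hx.2 g⟩⟩ hN
      (fun x hx => hx.2) fun x hx => ⟨pow_mem hx 4, ?_⟩
    rw [← pow_mul]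
    change x ^ 12 ∈ _
    rw [h12]
    exact one_mem _

theorem ser_of_soluble (h12 : ∀ x : G, x ^ 12 = 1) {N : Subgroup G} (hN : N.Normal)
    (h : Group.IsSolvable N) : Ser N := by
  obtain ⟨l, hl⟩ := ds_bot h
  exact ser_of_ds h12 l N hN hl

end

end Pool.Agent.Helper140_T12
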