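import Pool.Agent.Helper140_T12.Gp

/-!
# Uniform statements for exponent twelve
-/

set_option autoImplicit false

namespace Pool.Agent.Helper140_T12

open Pool.Agent.Helper140_E5
open Subgroup
open scoped commutatorElement

universe u v

theorem lf_three {M : Type u} [Group M] (h : ∀ x : M, x ^ 3 = 1) : LFin M := by
  intro S hS
  have := H15.Burn.fin3 h hS.toFinset
  rw [Set.Finite.coe_toFinset] at this
  exact this

theorem lf_cl {M : Type u} [Group M] {K : Subgroup M} (h : LFin K) {T : Set M} (hT : T.Finite)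
    (hTK : ∀ x ∈ T, x ∈ K) : Finite (closure T) := by
  have h2 := h (Subtype.val ⁻¹' T) (hT.preimage Subtype.val_injective.injOn)
  have h3 : closure T = (closure (Subtype.val ⁻¹' T : Set K)).map K.subtype := by
    rw [MonoidHom.map_closure]
    congr 1
    ext t
    constructor
    · intro ht
      exact ⟨⟨t, hTK t ht⟩, ht, rfl⟩
    · rintro ⟨t, ht, rfl⟩
      exact ht
  rw [h3]
  exact Finite.of_surjective (fun x : closure (Subtype.val ⁻¹' T : Set K) =>
    (⟨_, x, x.2, rfl⟩ : (closure (Subtype.val ⁻¹' T : Set K)).map K.subtype)) (by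
      rintro ⟨_, x, hx, rfl⟩
      exact ⟨⟨x, hx⟩, rfl⟩)

/-- the linear theorem, finiteness for finitely generated groups -/
theorem ring_fg {R : Type u} [Ring R] (h3 : (3 : R) = 0) {S : Set Rˣ} (hS : S.Finite)
    (h : ∀ g ∈ closure S, (g : R) ^ 8 + (g : R) ^ 4 + 1 = 0) : Finite (closure S) := by
  have H : Tw (closure S) := ⟨h3, h⟩
  have h1 := H.lf (Subtype.val ⁻¹' S) (hS.preimage Subtype.val_injective.injOn)
  have h2 : (closure (Subtype.val ⁻¹' S : Set (closure S))).map (closure S).subtype =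
      closure S := by
    rw [MonoidHom.map_closure]
    congr 1
    ext t
    constructor
    · rintro ⟨t, ht, rfl⟩
      exact ht
    · intro ht
      exact ⟨⟨t, subset_closure ht⟩, ht, rfl⟩
  have h3 : Finite ((closure (Subtype.val ⁻¹' S : Set (closure S))).map
      (closure S).subtype) :=
    Finite.of_surjective (fun x : closure (Subtype.val ⁻¹' S : Set (closure S)) =>
      (⟨_, x, x.2, rfl⟩ : (closure (Subtype.val ⁻¹' S : Set (closure S))).map
        (closure S).subtype)) (by
        rintro ⟨_, x, hx, rfl⟩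
        exact ⟨⟨x, hx⟩, rfl⟩)
  rw [h2] at h3
  exact h3

/-- the linear theorem, uniform -/
theorem ring_unif12 (d : ℕ) : ∃ m : ℕ, ∀ (R : Type u) [Ring R] (a : Fin d → Rˣ), (3 : R) = 0 →
    (∀ g ∈ closure (Set.range a), (g : R) ^ 8 + (g : R) ^ 4 + 1 = 0) →
    Finite (closure (Set.range a)) ∧ Nat.card (closure (Set.range a)) ≤ m := by
  by_contra hcon
  push Not at hcon
  have hcon' : ∀ m : ℕ, ∃ (R : Type u) (_ : Ring R) (a : Fin d → Rˣ), (3 : R) = 0 ∧
      (∀ g ∈ closure (Set.range a), (g : R) ^ 8 + (g : R) ^ 4 + 1 = 0) ∧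
      m < Nat.card (closure (Set.range a)) := by
    intro m
    obtain ⟨R, i, a, h3, h, hm⟩ := hcon m
    exact ⟨R, i, a, h3, h, hm (ring_fg h3 (Set.finite_range a) h)⟩
  choose R iR a h3 h hm using hcon'
  set a' : Fin d → (∀ m, R m)ˣ := fun i => MulEquiv.piUnits.symm fun m => a m i with ha'
  set π : ∀ q, (∀ m, R m)ˣ →* (R q)ˣ := fun q => Units.map (Pi.evalRingHom R q).toMonoidHom
    with hπ
  have hπa : ∀ q i, π q (a' i) = a q i := fun q i => rfl
  have hπc : ∀ q, (closure (Set.range a')).map (π q) = closure (Set.range (a q)) := by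
    intro q
    rw [MonoidHom.map_closure, ← Set.range_comp]
    rfl
  have h1 := ring_fg (R := ∀ m, R m) (funext fun m => h3 m) (Set.finite_range a') (by
    intro g hg
    funext m
    have : π m g ∈ closure (Set.range (a m)) := by
      rw [← hπc m]
      exact ⟨g, hg, rfl⟩
    exact h m _ this)
  set q := Nat.card (closure (Set.range a')) with hq
  have h2 := hm q
  rw [← hπc q] at h2
  have h4 : Function.Surjective (fun x : closure (Set.range a') => (⟨_, x, x.2, rfl⟩ :
      (closure (Set.range a')).map (π q))) := by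
    rintro ⟨_, x, hx, rfl⟩
    exact ⟨⟨x, hx⟩, rfl⟩
  exact absurd (Nat.card_le_card_of_surjective _ h4) (not_le.2 h2)

section
variable {G : Type u} [Group G]

/-- normal closures of elements of normal subgroups of exponent three -/
theorem n3_fin (h12 : ∀ x : G, x ^ 12 = 1) {S : Set G} (hS : S.Finite) (hc : closure S = ⊤)
    {N : Subgroup G} (hN : N.Normal) (h3 : ∀ x ∈ N, x ^ 3 = 1) {x : G} (hx : x ∈ N) :
    Finite (normalClosure {x}) := by
  have h1 := n3_lfq h12 hN h3 S hS
  rw [hc, relIndex_top_right] at h1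
  have hf : (centralizer (N : Set G)).FiniteIndex := ⟨h1⟩
  have hC : centralizer (N : Set G) ≤ centralizer {x} := by
    intro g hg
    rw [mem_centralizer_iff] at hg ⊢
    rintro _ rfl
    exact hg _ hx
  have hfx : (centralizer ({x} : Set G)).FiniteIndex := finiteIndex_of_le hC
  have h2 : (Group.conjugatesOfSet ({x} : Set G)).Finite := by
    have h4 : Group.conjugatesOfSet ({x} : Set G) = Set.range (fun g : G => g * x * g⁻¹) := by
      ext y
      rw [Group.mem_conjugatesOfSet_iff]
      constructor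
      · rintro ⟨_, rfl, hy⟩
        obtain ⟨g, rfl⟩ := isConj_iff.1 hy
        exact ⟨g, rfl⟩
      · rintro ⟨g, rfl⟩
        exact ⟨x, rfl, isConj_iff.2 ⟨g, rfl⟩⟩
    rw [h4]
    have h5 : ∀ g h : G, (QuotientGroup.mk g : G ⧸ centralizer ({x} : Set G)) =
        QuotientGroup.mk h → g * x * g⁻¹ = h * x * h⁻¹ := by
      intro g h hgh
      rw [QuotientGroup.eq, mem_centralizer_iff] at hgh
      have := hgh x rfl
      have e : g * (x * (g⁻¹ * h)) * h⁻¹ = g * ((g⁻¹ * h) * x) * h⁻¹ := by rw [this]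
      calc g * x * g⁻¹ = g * (x * (g⁻¹ * h)) * h⁻¹ := by group
        _ = g * ((g⁻¹ * h) * x) * h⁻¹ := e
        _ = h * x * h⁻¹ := by group
    have h6 : Set.range (fun g : G => g * x * g⁻¹) ⊆
        Set.range (fun c : G ⧸ centralizer ({x} : Set G) => c.out * x * c.out⁻¹) := by
      rintro _ ⟨g, rfl⟩
      exact ⟨QuotientGroup.mk g, h5 _ _ (QuotientGroup.out_eq' _)⟩
    exact (Set.finite_range _).subset h6
  have hle : normalClosure {x} ≤ N := by
    have := hN
    exact normalClosure_le_normal (Set.singleton_subset_iff.2 hx)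
  exact lf_cl (lf_three fun y : N => Subtype.ext (h3 y y.2)) h2 fun y hy =>
    hle (conjugatesOfSet_subset_normalClosure hy)


end

/-- uniform bound for the normal closures of elements -/
theorem n3_nc (d : ℕ) : ∃ b : ℕ, ∀ (G : Type u) [Group G] (a : Fin d → G) (N : Subgroup G),
    (∀ x : G, x ^ 12 = 1) → closure (Set.range a) = ⊤ → N.Normal → (∀ x ∈ N, x ^ 3 = 1) →
    ∀ x ∈ N, Finite (normalClosure {x}) ∧ Nat.card (normalClosure {x}) ≤ b := by
  by_contra hcon
  push Not at hcon
  have hcon' : ∀ b : ℕ, ∃ (G : Type u) (_ : Group G) (a : Fin d → G) (N : Subgroup G) (x : G),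
      (∀ x : G, x ^ 12 = 1) ∧ closure (Set.range a) = ⊤ ∧ N.Normal ∧ (∀ x ∈ N, x ^ 3 = 1) ∧
      x ∈ N ∧ b < Nat.card (normalClosure {x}) := by
    intro b
    obtain ⟨G, i, a, N, h12, ha, hN, h3, x, hx, hb⟩ := hcon b
    exact ⟨G, i, a, N, x, h12, ha, hN, h3, hx,
      hb (n3_fin h12 (Set.finite_range a) ha hN h3 hx)⟩
  choose G iG a N x h12 ha hN h3 hx hb using hcon'
  set a' : Fin d → ∀ m, G m := fun i m => a m i with ha'
  set H : Subgroup (∀ m, G m) := closure (insert x (Set.range a')) with hH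
  have hxH : x ∈ H := subset_closure (Set.mem_insert _ _)
  have hPn := pN_normal hN
  have hcl : closure (Subtype.val ⁻¹' (insert x (Set.range a')) : Set H) = ⊤ := by
    rw [eq_top_iff]
    rintro ⟨y, hy⟩ -
    have h1 : (closure (Subtype.val ⁻¹' (insert x (Set.range a')) : Set H)).map H.subtype = H := by
      rw [MonoidHom.map_closure]
      conv_rhs => rw [hH]
      congr 1
      ext t
      constructor
      · rintro ⟨t, ht, rfl⟩
        exact ht
      · intro ht
        exact ⟨⟨t, subset_closure ht⟩, ht, rfl⟩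
    have hy' := hy
    rw [← h1] at hy'
    obtain ⟨z, hz, hzy⟩ := hy'
    have : z = ⟨y, hy⟩ := Subtype.ext hzy
    rw [← this]
    exact hz
  have hfin := n3_fin (G := H) (fun y => Subtype.ext (funext fun m => h12 m ((y : ∀ m, G m) m)))
    (((Set.finite_range a').insert x).preimage Subtype.val_injective.injOn) hcl
    (N := (pN N).subgroupOf H) (normal_subgroupOf) (fun y hy => Subtype.ext
      (funext fun m => h3 m _ (hy m))) (x := ⟨x, hxH⟩) (fun m => hx m)
  set q := Nat.card (normalClosure {(⟨x, hxH⟩ : H)}) with hq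
  set π : H →* G q := (Pi.evalMonoidHom G q).comp H.subtype with hπ
  have hπs : Function.Surjective π := by
    rw [← MonoidHom.range_eq_top, eq_top_iff, ← ha q, closure_le]
    rintro _ ⟨i, rfl⟩
    exact ⟨⟨a' i, subset_closure (Set.mem_insert_of_mem _ ⟨i, rfl⟩)⟩, rfl⟩
  have h3' : (normalClosure {(⟨x, hxH⟩ : H)}).map π = normalClosure {x q} := by
    rw [map_normalClosure _ π hπs, Set.image_singleton]
    rfl
  have h2 := hb q
  rw [← h3'] at h2
  have h4 : Function.Surjective (fun y : normalClosure {(⟨x, hxH⟩ : H)} => (⟨_, y, y.2, rfl⟩ :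
      (normalClosure {(⟨x, hxH⟩ : H)}).map π)) := by
    rintro ⟨_, y, hy, rfl⟩
    exact ⟨⟨y, hy⟩, rfl⟩
  exact absurd (Nat.card_le_card_of_surjective _ h4) (not_le.2 h2)

end Pool.Agent.Helper140_T12
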